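import Pool.Agent.CayWL.Cayley

/-!
# Arc-transitivity for equal sides
-/

namespace Pool.Agent.CayWL

open Finset SRGWL

/-- every arc can be mapped to every other arc by an automorphism -/
def ArcTransitive {V : Type*} (X : SimpleGraph V) : Prop :=
  ∀ u v u' v', X.Adj u v → X.Adj u' v' → ∃ φ : X ≃g X, φ u = u' ∧ φ v = v'

theorem ArcTransitive.iso {V W : Type*} {X : SimpleGraph V} {Y : SimpleGraph W} (e : X ≃g Y)
    (h : ArcTransitive X) : ArcTransitive Y := by
  intro u v u' v' h1 h2
  obtain ⟨φ, h3, h4⟩ := h (e.symm u) (e.symm v) (e.symm u') (e.symm v')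
    (e.symm.map_adj_iff.2 h1) (e.symm.map_adj_iff.2 h2)
  refine ⟨(e.symm.trans φ).trans e, ?_, ?_⟩
  · change e (φ (e.symm u)) = u'
    rw [h3, RelIso.apply_symm_apply]
  · change e (φ (e.symm v)) = v'
    rw [h4, RelIso.apply_symm_apply]

/-- Cayley graphs are vertex-transitive -/
def leftMul {G : Type*} [Group G] (T : Set G) (g : G) :
    SimpleGraph.mulCayley T ≃g SimpleGraph.mulCayley T where
  toEquiv := Equiv.mulLeft g
  map_rel_iff' := by
    intro u v
    exact SimpleGraph.mulCayley_adj_mul_iff_right

variable {d : ℕ} {m : Fin d → ℕ}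

theorem vt (m : Fin d → ℕ) (β : ZMod 2) (u u' : Vert m) :
    ∃ φ : X (side m β) ≃g X (side m β), φ u = u' := by
  set e := cayIso m β
  refine ⟨(e.symm.trans (leftMul (S m β) (e.symm u' * (e.symm u)⁻¹))).trans e, ?_⟩
  change e (e.symm u' * (e.symm u)⁻¹ * e.symm u) = u'
  rw [inv_mul_cancel_right, RelIso.apply_symm_apply]

/-- the coordinates of the neighbour along `i` differ only in the coordinate `i` -/
theorem nb_off (x : Base m) (i : Option (Fin d)) (r : Fin d) (h : i ≠ some r) :
    (nb x i).1 r = x.1 r := by
  have h1 : ev m i r = 0 := by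
    rcases i with _ | i
    · rfl
    · have : r ≠ i := fun h' => h (by rw [h'])
      simp [ev, Pi.single_eq_of_ne this]
  obtain ⟨a, _ | _⟩ := x
  · simp [nb, h1]
  · simp [nb, h1]

/-- automorphisms which fix the fibres -/
def fibShift (b : Base m → ZMod 2) (w : Tor m → Fin d → ZMod 2)
    (hw : ∀ a a' p, (∀ r, r ≠ p → a r = a' r) → w a p = w a' p) : X b ≃g X b where
  toFun u := (u.1, u.2 + w u.1.1)
  invFun u := (u.1, u.2 + w u.1.1)
  left_inv u := by
    refine Prod.ext rfl ?_
    funext p
    have := CharTwo.add_self_eq_zero (w u.1.1 p)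
    simp only [Pi.add_apply]
    linear_combination this
  right_inv u := by
    refine Prod.ext rfl ?_
    funext p
    have := CharTwo.add_self_eq_zero (w u.1.1 p)
    simp only [Pi.add_apply]
    linear_combination this
  map_rel_iff' := by
    intro u v
    change (∃ i, v.1 = nb u.1 i ∧ co b (u.1, u.2 + w u.1.1) i = co b (v.1, v.2 + w v.1.1) i) ↔
      (∃ i, v.1 = nb u.1 i ∧ co b u i = co b v i)
    refine exists_congr fun i => and_congr_right fun h => ?_
    have h1 : ∀ (x : Vert m) (p : Fin d), co b (x.1, x.2 + w x.1.1) (some p) =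
        co b x (some p) + w x.1.1 p := fun _ _ => rfl
    have h2 : ∀ x : Vert m, co b (x.1, x.2 + w x.1.1) none = co b x none + ∑ p, w x.1.1 p := by
      intro x
      simp only [co, Pi.add_apply, sum_add_distrib]
      ring
    rcases i with _ | p
    · rw [h2, h2]
      have h3 : w v.1.1 = w u.1.1 := by
        congr 1
        funext r
        rw [h, nb_off _ _ _ (by simp)]
      rw [h3]
      exact add_left_inj _
    · rw [h1, h1]
      have h3 : w v.1.1 p = w u.1.1 p := hw _ _ _ fun r hr => by
        rw [h, nb_off _ _ _ (by simpa using hr.symm)]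
      rw [h3]
      exact add_left_inj _

/-- all sides equal to `q` -/
abbrev cs (d q : ℕ) : Fin d → ℕ := fun _ => q

variable {q : ℕ}

/-- permutation of the coordinates -/
def permFun (s : Fin d ≃ Fin d) (u : Vert (cs d q)) : Vert (cs d q) :=
  ((fun r => u.1.1 (s r), u.1.2), fun r => u.2 (s r))

theorem permFun_symm (s : Fin d ≃ Fin d) (u : Vert (cs d q)) :
    permFun s.symm (permFun s u) = u := by
  refine Prod.ext (Prod.ext ?_ rfl) ?_
  · funext r
    change u.1.1 (s (s.symm r)) = u.1.1 r
    rw [Equiv.apply_symm_apply]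
  · funext r
    change u.2 (s (s.symm r)) = u.2 r
    rw [Equiv.apply_symm_apply]

theorem permFun_adj (β : ZMod 2) (s : Fin d ≃ Fin d) {u v : Vert (cs d q)}
    (h : (X (side (cs d q) β)).Adj u v) : (X (side (cs d q) β)).Adj (permFun s u) (permFun s v) := by
  obtain ⟨⟨a, e⟩, t⟩ := u
  obtain ⟨⟨a', e'⟩, t'⟩ := v
  obtain ⟨i, h1, h2⟩ := h
  simp only at h1
  have hev : ∀ p r, ev (cs d q) (some p) (s r) = ev (cs d q) (some (s.symm p)) r := by
    intro p r
    rw [ev_apply, ev_apply]
    congr 1
    simp only [Option.some.injEq, eq_iff_iff]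
    constructor
    · rintro rfl
      simp
    · intro h
      rw [← h]
      simp
  rcases i with _ | p
  · refine ⟨none, ?_, ?_⟩
    · cases e
      · simp only [nb, Prod.mk.injEq] at h1
        obtain ⟨rfl, rfl⟩ := h1
        rfl
      · simp only [nb, Prod.mk.injEq] at h1
        obtain ⟨rfl, rfl⟩ := h1
        rfl
    · change ∑ r, t (s r) + side (cs d q) β (_, e) = ∑ r, t' (s r) + side (cs d q) β (_, e')
      rw [Equiv.sum_comp s t, Equiv.sum_comp s t']
      exact h2
  · refine ⟨some (s.symm p), ?_, ?_⟩
    · cases e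
      · simp only [nb, Prod.mk.injEq] at h1
        obtain ⟨rfl, rfl⟩ := h1
        refine Prod.ext ?_ rfl
        funext r
        change a (s r) + ev (cs d q) (some p) (s r) = a (s r) + ev (cs d q) (some (s.symm p)) r
        rw [hev]
      · simp only [nb, Prod.mk.injEq] at h1
        obtain ⟨rfl, rfl⟩ := h1
        refine Prod.ext ?_ rfl
        funext r
        change a (s r) - ev (cs d q) (some p) (s r) = a (s r) - ev (cs d q) (some (s.symm p)) r
        rw [hev]
    · change t (s (s.symm p)) = t' (s (s.symm p))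
      rw [Equiv.apply_symm_apply]
      exact h2

/-- permutation of the coordinates -/
def permIso (β : ZMod 2) (s : Fin d ≃ Fin d) :
    X (side (cs d q) β) ≃g X (side (cs d q) β) where
  toFun := permFun s
  invFun := permFun s.symm
  left_inv u := permFun_symm s u
  right_inv u := permFun_symm s.symm u
  map_rel_iff' := by
    intro u v
    refine ⟨fun h => ?_, fun h => permFun_adj β s h⟩
    have h1 := permFun_adj β s.symm h
    change (X (side (cs d q) β)).Adj (permFun s.symm (permFun s u))
      (permFun s.symm (permFun s v)) at h1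
    rwa [permFun_symm, permFun_symm] at h1

/-- the involution which exchanges the edges `none` and `some j` -/
def rotFun (β : ZMod 2) (j : Fin d) (u : Vert (cs d q)) : Vert (cs d q) :=
  ((fun r => if r = j then (if u.1.2 then 1 else 0) - ∑ p, u.1.1 p else u.1.1 r, u.1.2),
    fun r => if r = j then co (side (cs d q) β) u none else u.2 r)

theorem sum_rot {α : Type*} [AddCommGroup α] (j : Fin d) (a : Fin d → α) (c : α) :
    ∑ r, (if r = j then c - ∑ p, a p else a r) = c - a j := by
  have h1 : ∀ r, (if r = j then c - ∑ p, a p else a r) =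
      a r + (if r = j then c - ∑ p, a p - a j else 0) := by
    intro r
    by_cases h : r = j
    · subst h
      simp
    · simp [h]
  rw [sum_congr rfl fun r _ => h1 r, sum_add_distrib, sum_ite_eq' univ j, if_pos (mem_univ j)]
  abel

theorem co_rot_none (β : ZMod 2) (j : Fin d) (u : Vert (cs d q)) :
    co (side (cs d q) β) (rotFun β j u) none = u.2 j := by
  have h1 : ∀ x : ZMod 2, -x = x := by decide
  have h2 : ∀ r, (if r = j then co (side (cs d q) β) u none else u.2 r) =
      (if r = j then side (cs d q) β u.1 - ∑ p, u.2 p else u.2 r) := by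
    intro r
    congr 1
    change ∑ p, u.2 p + side (cs d q) β u.1 = side (cs d q) β u.1 - ∑ p, u.2 p
    rw [sub_eq_add_neg, h1, add_comm]
  change ∑ r, (if r = j then co (side (cs d q) β) u none else u.2 r) +
    side (cs d q) β u.1 = u.2 j
  rw [sum_congr rfl fun r _ => h2 r, sum_rot, sub_eq_add_neg, h1]
  have h3 := CharTwo.add_self_eq_zero (side (cs d q) β u.1)
  linear_combination h3

theorem rotFun_rotFun (β : ZMod 2) (j : Fin d) (u : Vert (cs d q)) :
    rotFun β j (rotFun β j u) = u := by
  refine Prod.ext (Prod.ext ?_ rfl) ?_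
  · funext r
    change (if r = j then (if u.1.2 then (1 : ZMod q) else 0) - ∑ p, (if p = j then
      (if u.1.2 then (1 : ZMod q) else 0) - ∑ p, u.1.1 p else u.1.1 p) else
      (if r = j then (if u.1.2 then (1 : ZMod q) else 0) - ∑ p, u.1.1 p else u.1.1 r)) = u.1.1 r
    rw [sum_rot]
    by_cases h : r = j
    · rw [if_pos h, h]
      abel
    · rw [if_neg h, if_neg h]
  · funext r
    change (if r = j then co (side (cs d q) β) (rotFun β j u) none else
      (if r = j then co (side (cs d q) β) u none else u.2 r)) = u.2 r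
    by_cases h : r = j
    · rw [if_pos h, co_rot_none, h]
    · rw [if_neg h, if_neg h]

theorem rotFun_adj (β : ZMod 2) (j : Fin d) {u v : Vert (cs d q)}
    (h : (X (side (cs d q) β)).Adj u v) :
    (X (side (cs d q) β)).Adj (rotFun β j u) (rotFun β j v) := by
  wlog hu : u.1.2 = false generalizing u v
  · refine (this h.symm ?_).symm
    obtain ⟨⟨a, e⟩, t⟩ := u
    obtain ⟨⟨a', e'⟩, t'⟩ := v
    obtain ⟨i, h1, h2⟩ := h
    simp only [Bool.not_eq_false] at hu
    subst hu
    exact congrArg Prod.snd h1
  obtain ⟨i, h1, h2⟩ := h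
  have hv : v.1.2 = true := by
    rw [h1]
    obtain ⟨⟨a, e⟩, t⟩ := u
    simp only at hu
    subst hu
    rfl
  have ha : v.1.1 = u.1.1 + ev (cs d q) i := by
    rw [h1]
    obtain ⟨⟨a, e⟩, t⟩ := u
    simp only at hu
    subst hu
    rfl
  have hsum : (∑ p, v.1.1 p : ZMod q) = ∑ p, u.1.1 p + ∑ p, (show ZMod q from ev (cs d q) i p) := by
    rw [ha]
    exact sum_add_distrib
  have hnb : ∀ i' : Option (Fin d), nb (rotFun β j u).1 i' =
      ((rotFun β j u).1.1 + ev (cs d q) i', true) := by
    intro i'
    obtain ⟨⟨a, e⟩, t⟩ := u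
    simp only at hu
    subst hu
    rfl
  have hR : ∀ r, (rotFun β j v).1.1 r =
      if r = j then (1 : ZMod q) - ∑ p, v.1.1 p else v.1.1 r := by
    intro r
    change (if r = j then (if v.1.2 then (1 : ZMod q) else 0) - ∑ p, v.1.1 p else v.1.1 r) = _
    rw [hv]
    rfl
  have hL : ∀ r, (rotFun β j u).1.1 r =
      if r = j then (0 : ZMod q) - ∑ p, u.1.1 p else u.1.1 r := by
    intro r
    change (if r = j then (if u.1.2 then (1 : ZMod q) else 0) - ∑ p, u.1.1 p else u.1.1 r) = _
    rw [hu]
    rfl
  have hsome : ∀ (u : Vert (cs d q)) (r : Fin d), co (side (cs d q) β) (rotFun β j u) (some r) =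
      if r = j then co (side (cs d q) β) u none else u.2 r := fun _ _ => rfl
  rcases i with _ | p
  · refine ⟨some j, ?_, ?_⟩
    · rw [hnb]
      refine Prod.ext ?_ hv
      funext r
      change (rotFun β j v).1.1 r = (rotFun β j u).1.1 r + ev (cs d q) (some j) r
      rw [hR, hL, ev_apply, hsum, ha]
      by_cases h : r = j
      · subst h
        simp [ev]
        ring
      · simp [h, ev, Ne.symm h]
    · rw [hsome, hsome, if_pos rfl, if_pos rfl]
      exact h2
  · by_cases hp : p = j
    · subst hp
      refine ⟨none, ?_, ?_⟩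
      · rw [hnb]
        refine Prod.ext ?_ hv
        funext r
        change (rotFun β p v).1.1 r = (rotFun β p u).1.1 r + ev (cs d q) none r
        rw [hR, hL, hsum, ha]
        by_cases h : r = p
        · subst h
          simp [ev]
        · simp [h, ev]
      · rw [co_rot_none, co_rot_none]
        exact h2
    · refine ⟨some p, ?_, ?_⟩
      · rw [hnb]
        refine Prod.ext ?_ hv
        funext r
        change (rotFun β j v).1.1 r = (rotFun β j u).1.1 r + ev (cs d q) (some p) r
        rw [hR, hL, hsum, ha]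
        by_cases h : r = j
        · subst h
          simp [ev, hp]
        · simp [h, ev]
      · rw [hsome, hsome, if_neg hp, if_neg hp]
        exact h2

/-- the involution as an automorphism -/
def rotIso (β : ZMod 2) (j : Fin d) : X (side (cs d q) β) ≃g X (side (cs d q) β) where
  toFun := rotFun β j
  invFun := rotFun β j
  left_inv u := rotFun_rotFun β j u
  right_inv u := rotFun_rotFun β j u
  map_rel_iff' := by
    intro u v
    refine ⟨fun h => ?_, fun h => rotFun_adj β j h⟩
    have h1 := rotFun_adj β j h
    change (X (side (cs d q) β)).Adj (rotFun β j (rotFun β j u))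
      (rotFun β j (rotFun β j v)) at h1
    rwa [rotFun_rotFun, rotFun_rotFun] at h1

/-- for equal sides the graphs are arc-transitive -/
theorem arcTransitive (hd : 1 ≤ d) (hq : 1 < q) (β : ZMod 2) :
    ArcTransitive (X (side (cs d q) β)) := by
  have : Fact (1 < q) := ⟨hq⟩
  set j : Fin d := ⟨0, by omega⟩
  set u₀ : Vert (cs d q) := ((0, false), 0) with hu₀
  set v₀ : Vert (cs d q) := ((ev (cs d q) (some j), true), 0) with hv₀
  -- neighbours along `some j`
  have step1 : ∀ t : Fin d → ZMod 2, t j = 0 → ∃ φ : X (side (cs d q) β) ≃g X (side (cs d q) β),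
      φ u₀ = u₀ ∧ φ ((ev (cs d q) (some j), true), t) = v₀ := by
    intro t ht
    classical
    let w : Tor (cs d q) → Fin d → ZMod 2 := fun a p =>
      if ∀ r, r ≠ p → a r = ev (cs d q) (some j) r then t p else 0
    have hw : ∀ (a a' : Tor (cs d q)) p, (∀ r, r ≠ p → a r = a' r) → w a p = w a' p := by
      intro a a' p h
      simp only [w]
      congr 1
      exact propext (forall_congr' fun r => imp_congr_right fun hr => by rw [h r hr])
    refine ⟨fibShift _ w hw, ?_, ?_⟩
    · refine Prod.ext rfl ?_
      funext p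
      change (0 : ZMod 2) + w 0 p = 0
      rw [zero_add]
      simp only [w]
      by_cases hp : p = j
      · rw [hp, ht, ite_self]
      · rw [if_neg]
        intro h
        have h1 := h j (Ne.symm hp)
        simp [ev] at h1
    · refine Prod.ext rfl ?_
      funext p
      change t p + w (ev (cs d q) (some j)) p = 0
      have h1 : w (ev (cs d q) (some j)) p = t p := if_pos fun _ _ => rfl
      rw [h1]
      exact CharTwo.add_self_eq_zero _
  -- all arcs at `u₀`
  have step2 : ∀ v, (X (side (cs d q) β)).Adj u₀ v →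
      ∃ φ : X (side (cs d q) β) ≃g X (side (cs d q) β), φ u₀ = u₀ ∧ φ v = v₀ := by
    rintro ⟨⟨a, e⟩, t⟩ ⟨i, h1, h2⟩
    simp only [nb, hu₀, zero_add, Prod.mk.injEq] at h1
    obtain ⟨rfl, rfl⟩ := h1
    -- an automorphism which moves the edge to `some j`
    have h3 : ∃ φ : X (side (cs d q) β) ≃g X (side (cs d q) β), φ u₀ = u₀ ∧
        ∃ t', t' j = 0 ∧ φ ((ev (cs d q) i, true), t) = ((ev (cs d q) (some j), true), t') := by
      rcases i with _ | p
      · have h3 : co (side (cs d q) β) u₀ none = 0 := by
          change ∑ _p : Fin d, (0 : ZMod 2) + side (cs d q) β ((0, false) : Base (cs d q)) = 0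
          simp [side]
        refine ⟨rotIso β j, ?_, (rotFun β j ((ev (cs d q) none, true), t)).2, ?_, ?_⟩
        · refine Prod.ext (Prod.ext ?_ rfl) ?_
          · funext r
            change (if r = j then (0 : ZMod q) - ∑ _p : Fin d, (0 : ZMod q) else 0) = 0
            simp
          · funext r
            change (if r = j then co (side (cs d q) β) u₀ none else 0) = 0
            rw [h3, ite_self]
        · change (if j = j then co (side (cs d q) β) ((ev (cs d q) none, true), t) none else
            t j) = 0
          rw [if_pos rfl, ← h2, h3]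
        · refine Prod.ext (Prod.ext ?_ rfl) rfl
          funext r
          change (if r = j then (1 : ZMod q) - ∑ _p : Fin d, (0 : ZMod q) else 0) =
            ev (cs d q) (some j) r
          rw [ev_apply]
          by_cases h : r = j
          · simp [h]
          · simp [h, Ne.symm h]
      · refine ⟨permIso β (Equiv.swap p j), ?_, fun r => t (Equiv.swap p j r), ?_, ?_⟩
        · rfl
        · change t (Equiv.swap p j j) = 0
          rw [Equiv.swap_apply_right]
          exact h2.symm
        · refine Prod.ext (Prod.ext ?_ rfl) rfl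
          funext r
          change ev (cs d q) (some p) (Equiv.swap p j r) = ev (cs d q) (some j) r
          rw [ev_apply, ev_apply]
          congr 1
          simp only [Option.some.injEq, eq_iff_iff]
          constructor
          · intro h
            have := congrArg (Equiv.swap p j) h
            rwa [Equiv.swap_apply_self, Equiv.swap_apply_left] at this
          · rintro rfl
            rw [Equiv.swap_apply_right]
    obtain ⟨φ, h4, t', h5, h6⟩ := h3
    obtain ⟨ψ, h7, h8⟩ := step1 t' h5
    refine ⟨φ.trans ψ, ?_, ?_⟩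
    · change ψ (φ u₀) = u₀
      rw [h4, h7]
    · change ψ (φ _) = v₀
      rw [h6, h8]
  intro u v u' v' h h'
  have step3 : ∀ u v, (X (side (cs d q) β)).Adj u v →
      ∃ φ : X (side (cs d q) β) ≃g X (side (cs d q) β), φ u = u₀ ∧ φ v = v₀ := by
    intro u v h
    obtain ⟨φ, hφ⟩ := vt (cs d q) β u u₀
    have h1 : (X (side (cs d q) β)).Adj u₀ (φ v) := by
      rw [← hφ]
      exact φ.map_adj_iff.2 h
    obtain ⟨ψ, h2, h3⟩ := step2 _ h1
    refine ⟨φ.trans ψ, ?_, h3⟩
    change ψ (φ u) = u₀
    rw [hφ, h2]
  obtain ⟨φ, h1, h2⟩ := step3 u v h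
  obtain ⟨ψ, h3, h4⟩ := step3 u' v' h'
  refine ⟨φ.trans ψ.symm, ?_, ?_⟩
  · change ψ.symm (φ u) = u'
    rw [h1, ← h3, RelIso.symm_apply_apply]
  · change ψ.symm (φ v) = v'
    rw [h2, ← h4, RelIso.symm_apply_apply]

end Pool.Agent.CayWL
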