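import Pool.Agent.SRGWL.WL

/-!
# The Weisfeiler-Leman algorithm and isomorphisms of graphs
-/

namespace Pool.Agent.CayWL

open SRGWL

theorem col_iso {V W : Type*} [Fintype V] [Fintype W] {X : SimpleGraph V} {Y : SimpleGraph W}
    (e : X ≃g Y) {k : ℕ} (r : ℕ) :
    ∀ s : Fin k → V, col Y k r (fun i => e (s i)) = col X k r s := by
  induction r with
  | zero =>
    intro s
    refine Prod.ext ?_ ?_
    · funext i j
      exact propext e.injective.eq_iff
    · funext i j
      exact propext e.map_adj_iff
  | succ r ih =>
    intro s
    refine Prod.ext (ih s) ?_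
    change Multiset.map _ _ = Multiset.map _ _
    have h2 : (Finset.univ : Finset W).val = (Finset.univ : Finset V).val.map e := by
      have h3 := congrArg Finset.val (Finset.map_univ_equiv e.toEquiv)
      rw [Finset.map_val] at h3
      exact h3.symm
    rw [h2, Multiset.map_map]
    apply Multiset.map_congr rfl
    intro v _
    funext i
    rw [Function.comp_apply, ← ih]
    congr 1
    funext j
    by_cases hj : j = i
    · subst hj; simp
    · simp [hj]

theorem map_col_iso {V W : Type*} [Fintype V] [Fintype W] {X : SimpleGraph V} {Y : SimpleGraph W}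
    (e : X ≃g Y) (k r : ℕ) : (Finset.univ : Finset (Fin k → W)).val.map (col Y k r) =
      (Finset.univ : Finset (Fin k → V)).val.map (col X k r) := by
  have h2 : (Finset.univ : Finset (Fin k → W)).val = (Finset.univ : Finset (Fin k → V)).val.map
      (Equiv.arrowCongr (Equiv.refl (Fin k)) e.toEquiv) := by
    have h3 := congrArg Finset.val
      (Finset.map_univ_equiv (Equiv.arrowCongr (Equiv.refl (Fin k)) e.toEquiv))
    rw [Finset.map_val] at h3
    exact h3.symm
  rw [h2, Multiset.map_map]
  apply Multiset.map_congr rfl
  intro s _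
  exact col_iso e r s

theorem WLEquiv.iso {V W V' W' : Type*} [Fintype V] [Fintype W] [Fintype V'] [Fintype W']
    {X : SimpleGraph V} {Y : SimpleGraph W} {X' : SimpleGraph V'} {Y' : SimpleGraph W'} {k : ℕ}
    (h : WLEquiv k X Y) (e : X ≃g X') (f : Y ≃g Y') : WLEquiv k X' Y' := by
  intro r
  rw [map_col_iso e, map_col_iso f]
  exact h r

end Pool.Agent.CayWL
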