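import Pool.Agent.CayWL.Defs

/-!
# The graphs `X 0` and `X b` are not isomorphic if the total parity of `b` is odd
-/

namespace Pool.Agent.CayWL

open Finset

variable {d : ℕ} {m : Fin d → ℕ}

theorem ev_inj (hm : ∀ i, 1 < m i) : Function.Injective (ev m) := by
  intro i j h
  rcases i with _ | i <;> rcases j with _ | j
  · rfl
  · have h1 := congrFun h j
    have : Fact (1 < m j) := ⟨hm j⟩
    simp [ev] at h1
  · have h1 := congrFun h i
    have : Fact (1 < m i) := ⟨hm i⟩
    simp [ev] at h1
  · by_contra hij
    have hij' : i ≠ j := fun h => hij (by rw [h])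
    have h1 := congrFun h i
    have : Fact (1 < m i) := ⟨hm i⟩
    simp [ev, Pi.single_eq_of_ne hij'] at h1

theorem nb_inj (hm : ∀ i, 1 < m i) (x : Base m) : Function.Injective (nb x) := by
  intro i j h
  obtain ⟨a, _ | _⟩ := x
  · exact ev_inj hm (add_left_cancel (congrArg Prod.fst h))
  · exact ev_inj hm (sub_right_injective (congrArg Prod.fst h))

/-- the vector which changes the coordinates `i` and `l` -/
def fl (i l : Option (Fin d)) : Fin d → ZMod 2 := fun a =>
  (if some a = i then 1 else 0) + (if some a = l then 1 else 0)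

theorem sum_ind (i : Option (Fin d)) :
    (∑ a : Fin d, if some a = i then (1 : ZMod 2) else 0) = 1 + if none = i then 1 else 0 := by
  rcases i with _ | i
  · simp [CharTwo.add_self_eq_zero]
  · simp

theorem co_fl (b : Base m → ZMod 2) (x : Base m) (s : Fin d → ZMod 2) (i l j : Option (Fin d)) :
    co b (x, s + fl i l) j = co b (x, s) j +
      ((if j = i then 1 else 0) + (if j = l then 1 else 0)) := by
  rcases j with _ | j
  · have h1 : ∑ a, fl i l a = (1 + if none = i then 1 else 0) + (1 + if none = l then 1 else 0) := by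
      simp only [fl, sum_add_distrib, sum_ind]
    simp only [co, Pi.add_apply, sum_add_distrib, h1]
    have h2 := CharTwo.add_self_eq_zero (1 : ZMod 2)
    linear_combination h2
  · rfl

theorem exists_third (hd : 2 ≤ d) (i j : Option (Fin d)) : ∃ l, l ≠ i ∧ l ≠ j := by
  by_contra h
  push Not at h
  have h1 : (univ : Finset (Option (Fin d))) ⊆ {i, j} := by
    intro l _
    by_cases h2 : l = i
    · simp [h2]
    · simp [h l h2]
  have h2 := card_le_card h1
  have h3 := card_le_two (a := i) (b := j)
  rw [card_univ, Fintype.card_option, Fintype.card_fin] at h2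
  omega

variable [∀ i, NeZero (m i)]

open Classical in
/-- the common neighbours -/
noncomputable def cnb (b : Base m → ZMod 2) (u v : Vert m) : Finset (Vert m) :=
  univ.filter fun w => (X b).Adj u w ∧ (X b).Adj v w

theorem mem_cnb {b : Base m → ZMod 2} {u v w : Vert m} :
    w ∈ cnb b u v ↔ (X b).Adj u w ∧ (X b).Adj v w := by
  simp [cnb]

/-- many common neighbours in one fibre -/
theorem cnb_flip (hm : ∀ i, 1 < m i) (b : Base m → ZMod 2) (x : Base m) (t : Fin d → ZMod 2)
    (i : Fin d) :
    (d - 1) * 2 ^ d ≤ 2 * (cnb b (x, t) (x, t + Pi.single i 1)).card := by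
  have h1 : ((univ.erase i) ×ˢ (univ : Finset (Fin d → ZMod 2))).card ≤
      ((cnb b (x, t) (x, t + Pi.single i 1)) ×ˢ (univ : Finset (ZMod 2))).card := by
    refine card_le_card_of_injOn
      (fun q => ((nb x (some q.1), Function.update q.2 q.1 (t q.1)), q.2 q.1)) ?_ ?_
    · rintro ⟨j, s⟩ hq
      have hj : j ≠ i := by simpa using hq
      simp only [coe_product, Set.mem_prod, mem_coe, mem_univ, and_true, mem_cnb]
      refine ⟨⟨some j, rfl, ?_⟩, ⟨some j, rfl, ?_⟩⟩
      · simp [co]
      · simp [co, Pi.single_eq_of_ne hj]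
    · rintro ⟨j, s⟩ _ ⟨j', s'⟩ _ h
      simp only [Prod.mk.injEq] at h
      obtain ⟨⟨h2, h3⟩, h4⟩ := h
      have h5 : j = j' := Option.some_injective _ (nb_inj hm x h2)
      subst h5
      refine Prod.ext rfl ?_
      funext l
      by_cases hl : l = j
      · rw [hl]
        exact h4
      · have := congrFun h3 l
        simpa [Function.update_of_ne hl] using this
  rw [card_product, card_product, card_erase_of_mem (mem_univ _), card_univ, card_univ, card_univ,
    Fintype.card_fin, Fintype.card_fun, ZMod.card, Fintype.card_fin] at h1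
  omega

/-- few common neighbours in different fibres -/
theorem cnb_ne (hm : ∀ i, 1 < m i) (hd : 2 ≤ d) (b : Base m → ZMod 2) {u v : Vert m}
    (huv : u.1 ≠ v.1) :
    4 * (cnb b u v).card ≤ (univ.filter fun i => ∃ j, nb u.1 i = nb v.1 j).card * 2 ^ d := by
  classical
  choose l hl1 hl2 using exists_third hd
  have h1 : ∀ w : Vert m, ∃ i j, w ∈ cnb b u v → w.1 = nb u.1 i ∧ w.1 = nb v.1 j ∧ i ≠ j ∧
      co b u i = co b w i ∧ co b v j = co b w j := by
    intro w
    by_cases hw : w ∈ cnb b u v
    · obtain ⟨⟨i, h2, h3⟩, ⟨j, h4, h5⟩⟩ := mem_cnb.1 hw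
      refine ⟨i, j, fun _ => ⟨h2, h4, ?_, h3, h5⟩⟩
      rintro rfl
      apply huv
      rw [← nb_nb u.1 i, ← h2, h4, nb_nb]
    · exact ⟨none, none, fun h => absurd h hw⟩
  choose I J hIJ using h1
  have h2 : ((cnb b u v) ×ˢ (univ : Finset (ZMod 2 × ZMod 2))).card ≤
      ((univ.filter fun i => ∃ j, nb u.1 i = nb v.1 j) ×ˢ
        (univ : Finset (Fin d → ZMod 2))).card := by
    refine card_le_card_of_injOn (fun q => (I q.1, q.1.2 +
      ((if q.2.1 = 0 then 0 else fl (I q.1) (l (I q.1) (J q.1))) +
        (if q.2.2 = 0 then 0 else fl (J q.1) (l (I q.1) (J q.1)))))) ?_ ?_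
    · rintro ⟨w, p⟩ hq
      have hw : w ∈ cnb b u v := by simpa using hq
      obtain ⟨h3, h4, -⟩ := hIJ w hw
      simp only [coe_product, Set.mem_prod, mem_coe, mem_univ, and_true, mem_filter, true_and]
      exact ⟨J w, by rw [← h3, h4]⟩
    · rintro ⟨w, α, β⟩ hq ⟨w', α', β'⟩ hq' h
      have hw : w ∈ cnb b u v := by simpa using hq
      have hw' : w' ∈ cnb b u v := by simpa using hq'
      obtain ⟨h3, h4, h5, h6, h7⟩ := hIJ w hw
      obtain ⟨h3', h4', h5', h6', h7'⟩ := hIJ w' hw'
      simp only [Prod.mk.injEq] at h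
      obtain ⟨h8, h9⟩ := h
      have hww : w.1 = w'.1 := by rw [h3, h3', h8]
      have hJ : J w = J w' := nb_inj hm v.1 (by rw [← h4, ← h4', hww])
      rw [← h8, ← hJ] at h9
      rw [← h8] at h5' h6'
      rw [← hJ] at h5' h7'
      set i := I w
      set j := J w
      have hil := hl1 i j
      have hjl := hl2 i j
      obtain ⟨x, s⟩ := w
      obtain ⟨x', s'⟩ := w'
      simp only at hww h9
      subst hww
      have key : ∀ (s : Fin d → ZMod 2) (α β : ZMod 2) (a : Option (Fin d)),
          co b (x, s + ((if α = 0 then 0 else fl i (l i j)) +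
            (if β = 0 then 0 else fl j (l i j)))) a = co b (x, s) a +
          α * ((if a = i then 1 else 0) + (if a = l i j then 1 else 0)) +
          β * ((if a = j then 1 else 0) + (if a = l i j then 1 else 0)) := by
        intro s α β a
        have c2 : ∀ γ : ZMod 2, γ ≠ 0 → γ = 1 := by decide
        rcases eq_or_ne α 0 with rfl | hα <;> rcases eq_or_ne β 0 with rfl | hβ
        · simp
        · rw [c2 β hβ]
          simp [co_fl]
        · rw [c2 α hα]
          simp [co_fl]
        · rw [c2 α hα, c2 β hβ]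
          simp only [one_ne_zero, if_false, one_mul]
          rw [← add_assoc, co_fl, co_fl]
      have e1 := key s α β i
      have e1' := key s' α' β' i
      rw [h9] at e1
      rw [e1'] at e1
      rw [← h6, ← h6'] at e1
      simp only [if_true, h5, hil.symm, if_false, add_zero, mul_one, mul_zero] at e1
      have e2 := key s α β j
      have e2' := key s' α' β' j
      rw [h9] at e2
      rw [e2'] at e2
      rw [← h7, ← h7'] at e2
      simp only [if_true, h5.symm, hjl.symm, if_false, add_zero, mul_one, mul_zero] at e2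
      have hα : α = α' := (add_left_cancel e1).symm
      have hβ : β = β' := (add_left_cancel e2).symm
      subst hα hβ
      have hs : s = s' := add_right_cancel h9
      rw [hs]
  rw [card_product, card_product, card_univ, card_univ, Fintype.card_fun, Fintype.card_prod,
    ZMod.card, Fintype.card_fin] at h2
  omega

/-- the condition on the base graph which makes the fibres visible -/
def Thin (m : Fin d → ℕ) : Prop :=
  ∀ x y : Base m, x ≠ y →
    (univ.filter fun i : Option (Fin d) => ∃ j, nb x i = nb y j).card < 2 * (d - 1)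

theorem cnb_iso {b b' : Base m → ZMod 2} (φ : X b ≃g X b') (u v : Vert m) :
    (cnb b' (φ u) (φ v)).card = (cnb b u v).card := by
  symm
  refine Finset.card_equiv φ.toEquiv fun w => ?_
  rw [mem_cnb, mem_cnb]
  exact and_congr (φ.map_adj_iff (v := u) (w := w)).symm (φ.map_adj_iff (v := v) (w := w)).symm

theorem eq_of_flip {α : Type*} (f : (Fin d → ZMod 2) → α)
    (h : ∀ t i, f (t + Pi.single i 1) = f t) (t : Fin d → ZMod 2) : f t = f 0 := by
  have h1 : ∀ (s : Finset (Fin d)) (t : Fin d → ZMod 2), (∀ i ∉ s, t i = 0) → f t = f 0 := by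
    intro s
    induction s using Finset.induction_on with
    | empty =>
      intro t ht
      have : t = 0 := funext fun i => ht i (notMem_empty i)
      rw [this]
    | insert i s hi ih =>
      intro t ht
      have c2 : ∀ γ : ZMod 2, γ = 0 ∨ γ = 1 := by decide
      rcases c2 (t i) with h2 | h2
      · refine ih t fun j hj => ?_
        by_cases hji : j = i
        · rw [hji, h2]
        · exact ht j (by simp [hji, hj])
      · rw [← h t i]
        refine ih _ fun j hj => ?_
        by_cases hji : j = i
        · rw [hji, Pi.add_apply, h2, Pi.single_eq_same]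
          decide
        · rw [Pi.add_apply, Pi.single_eq_of_ne hji, add_zero]
          exact ht j (by simp [hji, hj])
  exact h1 univ t fun i hi => absurd (mem_univ i) hi

theorem fib_iso (hm : ∀ i, 1 < m i) (hd : 2 ≤ d) (hT : Thin m) {b b' : Base m → ZMod 2}
    (φ : X b ≃g X b') (x : Base m) (t : Fin d → ZMod 2) : (φ (x, t)).1 = (φ (x, 0)).1 := by
  refine eq_of_flip (fun t => (φ (x, t)).1) (fun t i => ?_) t
  by_contra h
  have h1 := cnb_flip hm b x t i
  rw [← cnb_iso φ] at h1
  have h2 := cnb_ne hm hd b' (u := φ (x, t)) (v := φ (x, t + Pi.single i 1))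
    fun h' => h h'.symm
  have h3 := hT _ _ fun h' => h (h'.symm : (φ (x, t + Pi.single i 1)).1 = (φ (x, t)).1)
  have h4 : (univ.filter fun i_1 => ∃ j, nb (φ (x, t)).1 i_1 =
      nb (φ (x, t + Pi.single i 1)).1 j).card * 2 ^ d < 2 * (d - 1) * 2 ^ d :=
    Nat.mul_lt_mul_of_pos_right h3 (by positivity)
  rw [mul_assoc] at h4
  omega

omit [∀ i, NeZero (m i)] in
theorem sum_co (b : Base m → ZMod 2) (u : Vert m) : ∑ i, co b u i = b u.1 := by
  rw [Fintype.sum_option]
  have h := CharTwo.add_self_eq_zero (∑ i, u.2 i)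
  change ∑ i, u.2 i + b u.1 + ∑ i, u.2 i = b u.1
  linear_combination h

theorem sum_invol (c : Base m → Option (Fin d) → ZMod 2) (h : ∀ x i, c (nb x i) i = c x i) :
    ∑ x, ∑ i, c x i = 0 := by
  rw [sum_comm]
  refine sum_eq_zero fun i _ => ?_
  rw [Fintype.sum_prod_type_right, Fintype.sum_bool]
  have h1 : ∑ a, c (a, true) i = ∑ a, c (a, false) i := by
    rw [← Equiv.sum_comp (Equiv.addRight (ev m i)) fun a => c (a, true) i]
    exact sum_congr rfl fun a _ => h (a, false) i
  rw [h1, CharTwo.add_self_eq_zero]

/-- An isomorphism from `X 0` to `X b` forces the total parity of `b` to be even. -/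
theorem iso_sum (hm : ∀ i, 1 < m i) (hd : 2 ≤ d) (hT : Thin m) {b : Base m → ZMod 2}
    (φ : X (0 : Base m → ZMod 2) ≃g X b) : ∑ x, b x = 0 := by
  set π : Base m → Base m := fun x => (φ (x, 0)).1 with hπ
  have hf : ∀ x t, (φ (x, t)).1 = π x := fib_iso hm hd hT φ
  have hsur : Function.Surjective π := by
    intro y
    obtain ⟨u, hu⟩ := φ.surjective (y, 0)
    refine ⟨u.1, ?_⟩
    rw [← hf u.1 u.2]
    change (φ u).1 = y
    rw [hu]
  have hinj : Function.Injective π := Finite.injective_iff_surjective.2 hsur
  set ψ := (Equiv.ofBijective π ⟨hinj, hsur⟩).symm with hψ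
  have hψ1 : ∀ x, ψ (π x) = x := fun x => (Equiv.ofBijective π ⟨hinj, hsur⟩).symm_apply_apply x
  have key : ∀ x i, co b (φ (x, 0)) i = co b (φ (ψ (nb (π x) i), 0)) i := by
    intro x
    have h1 : ∀ j, ∃ i, π (nb x j) = nb (π x) i ∧ co b (φ (x, 0)) i = co b (φ (nb x j, 0)) i := by
      intro j
      have h2 : (X (0 : Base m → ZMod 2)).Adj (x, 0) (nb x j, 0) := by
        refine ⟨j, rfl, ?_⟩
        rcases j with _ | j <;> simp [co]
      exact φ.map_adj_iff.2 h2
    choose τ h2 h3 using h1
    have h4 : Function.Injective τ := by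
      intro j j' h
      have h5 := h2 j
      rw [h, ← h2 j'] at h5
      exact nb_inj hm x (hinj h5)
    intro i
    obtain ⟨j, rfl⟩ := Finite.injective_iff_surjective.1 h4 i
    rw [← h2, hψ1]
    exact h3 j
  have h5 : ∀ y, (φ (ψ y, 0)).1 = y := fun y =>
    (Equiv.ofBijective π ⟨hinj, hsur⟩).apply_symm_apply y
  have h6 := sum_invol (fun y i => co b (φ (ψ y, 0)) i) fun y i => by
    have h7 := key (ψ y) i
    have h8 : π (ψ y) = y := h5 y
    rw [h8] at h7
    exact h7.symm
  rw [← h6]
  refine sum_congr rfl fun y _ => ?_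
  rw [sum_co, h5]

omit [∀ i, NeZero (m i)] in
theorem ev_apply (i : Option (Fin d)) (l : Fin d) : ev m i l = if i = some l then 1 else 0 := by
  rcases i with _ | i
  · simp [ev]
  · by_cases h : i = l
    · subst h
      simp [ev]
    · simp [ev, h]

/-- reduction to differences of the vectors `ev i` -/
theorem thin_of {n : ℕ} (hn : n < 2 * (d - 1)) (h : ∀ D : Tor m, D ≠ 0 →
    (univ.filter fun i : Option (Fin d) => ∃ j, ev m i = D + ev m j).card ≤ n) : Thin m := by
  rintro ⟨a, e⟩ ⟨a', e'⟩ hxy
  refine lt_of_le_of_lt ?_ hn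
  cases e <;> cases e'
  · have hD : a' - a ≠ 0 := fun h => hxy (by rw [sub_eq_zero.1 h])
    refine (card_le_card fun i hi => ?_).trans (h (a' - a) hD)
    simp only [mem_filter, mem_univ, true_and, nb, Prod.mk.injEq, and_true] at hi ⊢
    obtain ⟨j, hj⟩ := hi
    exact ⟨j, by rw [sub_add_eq_add_sub, ← hj]; abel⟩
  · simp [nb]
  · simp [nb]
  · have hD : a - a' ≠ 0 := fun h => hxy (by rw [sub_eq_zero.1 h])
    refine (card_le_card fun i hi => ?_).trans (h (a - a') hD)
    simp only [mem_filter, mem_univ, true_and, nb, Prod.mk.injEq, and_true] at hi ⊢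
    obtain ⟨j, hj⟩ := hi
    refine ⟨j, ?_⟩
    have : ev m i = a - (a' - ev m j) := by rw [← hj]; abel
    rw [this]
    abel

/-- two vertices of the base graph have at most two common neighbours -/
theorem thin_of_three (hm : ∀ i, 1 < m i) (hd : 3 ≤ d) : Thin m := by
  classical
  refine thin_of (n := 2) (by omega) fun D hD => ?_
  obtain ⟨l, hl⟩ := Function.ne_iff.1 hD
  have h1 : ∀ i, (∃ j, ev m i = D + ev m j) → i = some l ∨ ev m i = D + ev m (some l) := by
    rintro i ⟨j, hj⟩
    by_cases hi : i = some l
    · exact Or.inl hi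
    · right
      have h2 := congrFun hj l
      rw [ev_apply, if_neg hi, Pi.add_apply, ev_apply] at h2
      by_cases hjl : j = some l
      · rw [← hjl]
        exact hj
      · rw [if_neg hjl, add_zero] at h2
        exact absurd h2.symm hl
  by_cases h2 : ∃ i0, ev m i0 = D + ev m (some l)
  · obtain ⟨i0, h3⟩ := h2
    refine (card_le_card (t := {some l, i0}) fun i hi => ?_).trans card_le_two
    rcases h1 i (mem_filter.1 hi).2 with h4 | h4
    · simp [h4]
    · have : i = i0 := ev_inj hm (h4.trans h3.symm)
      simp [this]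
  · refine (card_le_card (t := {some l, some l}) fun i hi => ?_).trans card_le_two
    rcases h1 i (mem_filter.1 hi).2 with h4 | h4
    · simp [h4]
    · exact absurd ⟨i, h4⟩ h2

/-- two vertices of the base graph have at most one common neighbour if all sides are at least `3` -/
theorem thin_of_two (hm : ∀ i, 2 < m i) (hd : 2 ≤ d) : Thin m := by
  refine thin_of (n := 1) (by omega) fun D hD => ?_
  have hm1 : ∀ i, 1 < m i := fun i => lt_trans one_lt_two (hm i)
  rw [card_le_one]
  intro i hi i' hi'
  obtain ⟨j, hj⟩ := (mem_filter.1 hi).2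
  obtain ⟨j', hj'⟩ := (mem_filter.1 hi').2
  have hij : i ≠ j := by
    rintro rfl
    exact hD (left_eq_add.1 (by rw [add_comm]; exact hj))
  have h1 : ev m i + ev m j' = ev m i' + ev m j := by
    rw [hj, hj']
    abel
  have two : ∀ p, (1 + 1 : ZMod (m p)) ≠ 0 := by
    intro p h
    have h2 : ((2 : ℕ) : ZMod (m p)) = 0 := by
      push_cast
      rw [← h]
      norm_num
    rw [ZMod.natCast_eq_zero_iff] at h2
    exact absurd (Nat.le_of_dvd (by norm_num) h2) (not_le.2 (hm p))
  rcases i with _ | p
  · rcases j with _ | p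
    · exact absurd rfl hij
    · have : Fact (1 < m p) := ⟨hm1 p⟩
      have h2 := congrFun h1 p
      simp only [Pi.add_apply, ev_apply] at h2
      by_cases h3 : i' = some p
      · simp only [h3, if_true] at h2
        by_cases h4 : j' = some p
        · simp [h4] at h2
        · simp only [h4, if_false] at h2
          exact absurd (by simpa using h2.symm) (two p)
      · by_cases h4 : j' = some p
        · rw [h4] at h1
          have h5 : ev m i' = ev m none := (add_right_cancel h1).symm
          exact (ev_inj hm1 h5).symm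
        · simp [h3, h4] at h2
  · have : Fact (1 < m p) := ⟨hm1 p⟩
    have h2 := congrFun h1 p
    simp only [Pi.add_apply, ev_apply, if_true, hij.symm, if_false] at h2
    by_cases h3 : i' = some p
    · exact h3.symm
    · exfalso
      by_cases h4 : j' = some p
      · simp only [h4, h3, if_true, if_false, add_zero] at h2
        exact two p h2
      · simp [h3, h4] at h2

end Pool.Agent.CayWL
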