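import Pool.Agent.CayWL.Game
import Pool.Agent.CayWL.NonIso
import Pool.Agent.CayWL.Iso

/-!
# The graphs `X (side m β)` are Cayley graphs
-/

namespace Pool.Agent.CayWL

open Finset SRGWL

variable {d : ℕ} {m : Fin d → ℕ}

theorem mem_S {β : ZMod 2} {x : GDih (Ab m)} : x ∈ S m β ↔ x.e = true ∧
    ((∃ i, x.a.1 = Pi.single i 1 ∧ x.a.2 i = 0) ∨ (x.a.1 = 0 ∧ ∑ i, x.a.2 i = β)) := Iff.rfl

theorem sq_of_mem_S {β : ZMod 2} {x : GDih (Ab m)} (hx : x ∈ S m β) : x * x = 1 := by
  ext1
  · simp [hx.1]
  · simp

/-- the adjacency in the Cayley graph, for a set of involutions -/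
theorem cay_adj {G : Type*} [Group G] {T : Set G} (hT : ∀ x ∈ T, x * x = 1) (hT1 : (1 : G) ∉ T)
    (u v : G) : (SimpleGraph.mulCayley T).Adj u v ↔ ∃ g ∈ T, u * g = v := by
  rw [SimpleGraph.mulCayley_adj']
  constructor
  · rintro ⟨_, g, hg, h | h⟩
    · exact ⟨g, hg, h⟩
    · exact ⟨g, hg, by rw [h, mul_assoc, hT g hg, mul_one]⟩
  · rintro ⟨g, hg, h⟩
    refine ⟨?_, g, hg, Or.inl h⟩
    rintro rfl
    rw [mul_eq_left] at h
    exact hT1 (h ▸ hg)

theorem one_notMem_S {β : ZMod 2} : (1 : GDih (Ab m)) ∉ S m β := by
  intro h
  have := h.1
  simp at this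

/-- the bijection -/
def cayEquiv (m : Fin d → ℕ) : GDih (Ab m) ≃ Vert m where
  toFun g := ((g.a.1, g.e), g.a.2)
  invFun u := ⟨(u.1.1, u.2), u.1.2⟩
  left_inv _ := rfl
  right_inv _ := rfl

/-- the graph `X (side m β)` is a Cayley graph -/
def cayIso (m : Fin d → ℕ) (β : ZMod 2) : SimpleGraph.mulCayley (S m β) ≃g X (side m β) where
  toEquiv := cayEquiv m
  map_rel_iff' := by
    intro u v
    rw [cay_adj (fun x hx => sq_of_mem_S hx) one_notMem_S]
    have c1 : ∀ x : ZMod 2, x + x = 0 := CharTwo.add_self_eq_zero
    obtain ⟨⟨a, t⟩, e⟩ := u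
    obtain ⟨⟨a', t'⟩, e'⟩ := v
    constructor
    · rintro ⟨i, h1, h2⟩
      change (a', e') = nb (a, e) i at h1
      refine ⟨⟨(ev m i, t + t'), true⟩, ⟨rfl, ?_⟩, ?_⟩
      · rcases i with _ | i
        · right
          refine ⟨rfl, ?_⟩
          change ∑ i, t i + side m β (a, e) = ∑ i, t' i + side m β (a', e') at h2
          change ∑ i, (t i + t' i) = β
          rw [sum_add_distrib]
          cases e
          · have h3 : e' = true := congrArg Prod.snd h1
            subst h3
            simp only [side, if_true, Bool.false_eq_true, if_false, add_zero] at h2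
            rw [h2]
            linear_combination c1 (∑ i, t' i)
          · have h3 : e' = false := congrArg Prod.snd h1
            subst h3
            simp only [side, if_true, Bool.false_eq_true, if_false, add_zero] at h2
            rw [← h2]
            linear_combination c1 (∑ i, t i)
        · left
          refine ⟨i, rfl, ?_⟩
          change t i = t' i at h2
          change t i + t' i = 0
          rw [h2, c1]
      · have ht : t + (t + t') = t' := by
          funext j
          simp only [Pi.add_apply]
          linear_combination c1 (t j)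
        have ht' : t - (t + t') = t' := by
          funext j
          simp only [Pi.add_apply, Pi.sub_apply]
          linear_combination - c1 (t' j)
        cases e
        · simp only [nb, Prod.mk.injEq] at h1
          obtain ⟨rfl, rfl⟩ := h1
          ext1
          · simp [ht]
          · simp
        · simp only [nb, Prod.mk.injEq] at h1
          obtain ⟨rfl, rfl⟩ := h1
          ext1
          · simp only [GDih.mul_a, GDih.sg_true, ← sub_eq_add_neg, Prod.mk_sub_mk, ht']
          · simp
    · rintro ⟨⟨⟨b, s⟩, f⟩, ⟨h1, h2⟩, h3⟩
      simp only at h1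
      subst h1
      have h4 : a' = a + GDih.sg e b := by
        have := congrArg (fun g : GDih (Ab m) => g.a.1) h3
        cases e
        · exact this.symm
        · exact this.symm
      have h5 : t' = t + s := by
        have := congrArg (fun g : GDih (Ab m) => g.a.2) h3
        cases e
        · exact this.symm
        · refine this.symm.trans ?_
          change t + -s = t + s
          congr 1
          funext j
          exact neg_eq_of_add_eq_zero_left (c1 (s j))
      have h6 : e' = !e := by
        have := congrArg (fun g : GDih (Ab m) => g.e) h3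
        simpa using this.symm
      subst h4 h5 h6
      have key : ∀ i, b = ev m i →
          ((a + GDih.sg e b, !e) : Base m) = nb (a, e) i := by
        rintro i rfl
        cases e
        · rfl
        · simp [nb, sub_eq_add_neg]
      rcases h2 with ⟨i, h7, h8⟩ | ⟨h7, h8⟩
      · refine ⟨some i, key (some i) h7, ?_⟩
        change t i = t i + s i
        simp only at h8
        rw [h8, add_zero]
      · refine ⟨none, key none h7, ?_⟩
        change ∑ i, t i + side m β (a, e) = ∑ i, (t i + s i) + side m β (_, !e)
        rw [sum_add_distrib]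
        simp only at h8
        cases e
        · simp [side, h8, add_assoc, c1]
        · simp [side, h8]

end Pool.Agent.CayWL
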