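import Pool.Agent.CayWL.Main
import Pool.Agent.CayWL.Arc

/-!
# The valency, and the elementary abelian case
-/

namespace Pool.Agent.CayWL

open Finset SRGWL

variable {d : ℕ} {m : Fin d → ℕ}

theorem two_card_co [∀ i, NeZero (m i)] (hd : 1 ≤ d) (b : Base m → ZMod 2) (x : Base m)
    (i : Option (Fin d)) (c : ZMod 2) :
    2 * (univ.filter fun t : Fin d → ZMod 2 => co b (x, t) i = c).card = 2 ^ d := by
  classical
  obtain ⟨l, hl⟩ : ∃ l, l ≠ i := by
    rcases i with _ | i
    · exact ⟨some ⟨0, by omega⟩, by simp⟩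
    · exact ⟨none, by simp⟩
  have h1 : (univ.filter fun t : Fin d → ZMod 2 => co b (x, t) i = c).card =
      (univ.filter fun t : Fin d → ZMod 2 => ¬ co b (x, t) i = c).card := by
    refine Finset.card_equiv (Equiv.addRight (fl i l)) fun t => ?_
    simp only [mem_filter, mem_univ, true_and, Equiv.coe_addRight]
    rw [co_fl, if_pos rfl, if_neg hl.symm, add_zero]
    generalize co b (x, t) i = y
    revert y c
    decide
  have h2 := card_filter_add_card_filter_not (s := (univ : Finset (Fin d → ZMod 2)))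
    (fun t => co b (x, t) i = c)
  rw [← h1, card_univ, Fintype.card_fun, ZMod.card, Fintype.card_fin] at h2
  omega

/-- the valency -/
theorem ncard_S [∀ i, NeZero (m i)] (hd : 1 ≤ d) (hm : ∀ i, 1 < m i) (β : ZMod 2) :
    (S m β).ncard = (d + 1) * 2 ^ (d - 1) := by
  classical
  have h1 : S m β = (((univ : Finset (Option (Fin d))).sigma fun i =>
      univ.filter fun t : Fin d → ZMod 2 => co (fun _ => β) (((0, false) : Base m), t) i = 0).image
        fun q => (⟨(ev m q.1, q.2), true⟩ : GDih (Ab m)) : Finset (GDih (Ab m))) := by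
    ext ⟨⟨a, t⟩, e⟩
    rw [mem_S]
    simp only [coe_image, Set.mem_image, mem_coe, mem_sigma, mem_univ, true_and, mem_filter,
      Sigma.exists, GDih.mk.injEq, Prod.mk.injEq]
    have c2 : ∀ x : ZMod 2, x + β = 0 ↔ x = β := by
      intro x
      revert x β
      decide
    constructor
    · rintro ⟨rfl, ⟨i, h1, h2⟩ | ⟨h1, h2⟩⟩
      · exact ⟨some i, t, h2, ⟨h1.symm, rfl⟩, rfl⟩
      · exact ⟨none, t, (c2 _).2 h2, ⟨h1.symm, rfl⟩, rfl⟩
    · rintro ⟨_ | i, t', h1, ⟨h2, rfl⟩, h3⟩
      · exact ⟨h3.symm, Or.inr ⟨h2.symm, (c2 _).1 h1⟩⟩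
      · exact ⟨h3.symm, Or.inl ⟨i, h2.symm, h1⟩⟩
  rw [h1, Set.ncard_coe_finset, card_image_of_injective, card_sigma]
  · have h2 : ∀ i : Option (Fin d), (univ.filter fun t : Fin d → ZMod 2 =>
        co (fun _ => β) (((0, false) : Base m), t) i = 0).card = 2 ^ (d - 1) := by
      intro i
      have h3 := two_card_co hd (fun _ => β) ((0, false) : Base m) i 0
      obtain ⟨c, rfl⟩ := Nat.exists_eq_add_of_le' hd
      rw [pow_succ] at h3
      rw [Nat.add_sub_cancel]
      omega
    rw [sum_congr rfl fun i _ => h2 i, sum_const, card_univ, Fintype.card_option, Fintype.card_fin,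
      smul_eq_mul]
  · rintro ⟨i, t⟩ ⟨j, s⟩ h
    simp only [GDih.mk.injEq, Prod.mk.injEq, and_true] at h
    obtain ⟨h2, rfl⟩ := h
    have := ev_inj hm h2
    subst this
    rfl

/-- all sides equal to two -/
abbrev two (d : ℕ) : Fin d → ℕ := fun _ => 2

theorem sq_two (d : ℕ) (x : GDih (Ab (two d))) : x * x = 1 := by
  have c1 : ∀ x : ZMod 2, x + x = 0 := CharTwo.add_self_eq_zero
  have h1 : x.a + x.a = 0 := by
    refine Prod.ext ?_ ?_
    · funext i
      exact c1 _
    · funext i
      exact c1 _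
  ext1
  · rw [GDih.mul_a, GDih.one_a]
    cases x.e
    · exact h1
    · simp
  · simp

theorem comm_two (d : ℕ) (x y : GDih (Ab (two d))) : x * y = y * x := by
  have h1 := sq_two d (x * y)
  have h2 := sq_two d x
  have h3 := sq_two d y
  calc x * y = x * y * (y * x * (y * x)) := by rw [sq_two, mul_one]
    _ = x * (y * y) * x * (y * x) := by simp only [mul_assoc]
    _ = y * x := by rw [h3, mul_one, h2, one_mul]

instance (d : ℕ) : CommGroup (GDih (Ab (two d))) := { mul_comm := comm_two d }

/-- an additive isomorphism with `(ZMod 2)^(2d+1)` -/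
theorem exists_equiv_two (d : ℕ) :
    Nonempty (Additive (GDih (Ab (two d))) ≃+ (Fin (2 * d + 1) → ZMod 2)) := by
  letI : Module (ZMod 2) (Additive (GDih (Ab (two d)))) := AddCommGroup.zmodModule (n := 2) (by
    intro x
    rw [two_nsmul]
    exact sq_two d x)
  have h1 : Nat.card (Additive (GDih (Ab (two d)))) = 2 ^ (2 * d + 1) := by
    have h2 := card_GDih (two d)
    rw [prod_const, card_univ, Fintype.card_fin, ← pow_add] at h2
    rw [show 2 * d + 1 = d + 1 + d by ring]
    exact h2
  have h2 : Module.finrank (ZMod 2) (Additive (GDih (Ab (two d)))) = 2 * d + 1 := by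
    have : Finite (Additive (GDih (Ab (two d)))) := inferInstance
    have h3 := Module.natCard_eq_pow_finrank (K := ZMod 2) (V := Additive (GDih (Ab (two d))))
    rw [h1, Nat.card_zmod] at h3
    exact (Nat.pow_right_injective le_rfl h3).symm
  have h3 : Module.finrank (ZMod 2) (Fin (2 * d + 1) → ZMod 2) = 2 * d + 1 := by simp
  exact ⟨(LinearEquiv.ofFinrankEq _ _ (h2.trans h3.symm)).toAddEquiv⟩

/-- Cayley graphs of isomorphic groups -/
def cayMap {G : Type*} [Group G] {A : Type*} [AddGroup A] (E : Additive G ≃+ A) (T : Set G) :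
    SimpleGraph.mulCayley T ≃g SimpleGraph.addCayley ((fun g : G => E (Additive.ofMul g)) '' T) where
  toEquiv := (Additive.ofMul).trans E.toEquiv
  map_rel_iff' := by
    intro u v
    rw [SimpleGraph.mulCayley_adj', SimpleGraph.addCayley_adj']
    refine and_congr (not_congr (Equiv.injective _).eq_iff) ?_
    constructor
    · rintro ⟨_, ⟨g, hg, rfl⟩, h | h⟩
      · refine ⟨g, hg, Or.inl ?_⟩
        have h' : E (Additive.ofMul u) + E (Additive.ofMul g) = E (Additive.ofMul v) := h
        rw [← map_add] at h'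
        exact E.injective h'
      · refine ⟨g, hg, Or.inr ?_⟩
        have h' : E (Additive.ofMul u) = E (Additive.ofMul v) + E (Additive.ofMul g) := h
        rw [← map_add] at h'
        exact E.injective h'
    · rintro ⟨g, hg, h | h⟩
      · refine ⟨_, ⟨g, hg, rfl⟩, Or.inl ?_⟩
        change E (Additive.ofMul u) + E (Additive.ofMul g) = E (Additive.ofMul v)
        rw [← map_add, ← h]
        rfl
      · refine ⟨_, ⟨g, hg, rfl⟩, Or.inr ?_⟩
        change E (Additive.ofMul u) = E (Additive.ofMul v) + E (Additive.ofMul g)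
        rw [← map_add, h]
        rfl

/-- cubelike graphs have a large Weisfeiler-Leman dimension -/
theorem cubelike (d : ℕ) (hd : 3 ≤ d) (k : ℕ) (hk : 9 * (d * (k + 1)) < 2 ^ d) :
    ∃ (T : Set (Fin (2 * d + 1) → ZMod 2)) (Y : SimpleGraph (Fin (2 * d + 1) → ZMod 2)),
      ArcTransitive (SimpleGraph.addCayley T) ∧
      WLEquiv k (SimpleGraph.addCayley T) Y ∧ IsEmpty (SimpleGraph.addCayley T ≃g Y) := by
  classical
  have hd0 : 0 < d := by omega
  have hm : ∀ i, 1 < two d i := fun _ => one_lt_two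
  have : ∀ i, NeZero (two d i) := fun _ => ⟨two_ne_zero⟩
  obtain ⟨E⟩ := exists_equiv_two d
  set b : Base (two d) → ZMod 2 := Pi.single (0, false) 1 with hb
  have hk' : 9 * ((∑ i, two d i) * (k + 1)) < 2 * ∏ i, two d i := by
    rw [sum_const, prod_const, card_univ, Fintype.card_fin, smul_eq_mul]
    have : 9 * (d * 2 * (k + 1)) = 2 * (9 * (d * (k + 1))) := by ring
    rw [this]
    exact Nat.mul_lt_mul_of_pos_left hk two_pos
  have e1 : SimpleGraph.mulCayley (S (two d) 0) ≃g X (0 : Base (two d) → ZMod 2) := by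
    have h := cayIso (two d) 0
    rwa [side_zero] at h
  have e2 := e1.symm.trans (cayMap E (S (two d) 0))
  have h1 := wlEquiv hd0 hk' 0 b
  have e3 : Vert (two d) ≃ (Fin (2 * d + 1) → ZMod 2) := e2.toEquiv
  have e4 : X b ≃g (X b).map e3.toEmbedding := SimpleGraph.Iso.map e3 (X b)
  refine ⟨_, (X b).map e3.toEmbedding, ?_, WLEquiv.iso h1 e2 e4, ⟨fun φ => ?_⟩⟩
  · refine ArcTransitive.iso e2 ?_
    have h := arcTransitive (d := d) (q := 2) (by omega) one_lt_two 0
    rwa [side_zero] at h
  · have h2 := iso_sum hm (by omega) (thin_of_three hm hd) ((e2.trans φ).trans e4.symm)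
    rw [hb, Fintype.sum_pi_single'] at h2
    exact one_ne_zero h2

end Pool.Agent.CayWL
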