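import Mathlib
import Pool.Agent.SRGWL.WL

/-!
# Cayley graphs of generalised dihedral groups with large Weisfeiler-Leman dimension: definitions

`m : Fin d → ℕ`, the torus `Tor m = ∏ ZMod (m i)`, the vectors `ev none = 0`, `ev (some i) = e_i`.
Base graph: the vertices are the pairs `(a, ε)`, `a : Tor m`, `ε : Bool`; the edge `i` joins
`(a, false)` and `(a + ev i, true)`.
-/

namespace Pool.Agent.CayWL

open Finset

variable {d : ℕ}

/-- the torus -/
abbrev Tor (m : Fin d → ℕ) : Type := ∀ i, ZMod (m i)

/-- the vectors `0, e_1, …, e_d` -/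
def ev (m : Fin d → ℕ) : Option (Fin d) → Tor m
  | none => 0
  | some i => Pi.single i 1

/-- the vertices of the base graph -/
abbrev Base (m : Fin d → ℕ) : Type := Tor m × Bool

/-- the neighbour of a base vertex along the edge `i` -/
def nb {m : Fin d → ℕ} : Base m → Option (Fin d) → Base m
  | (a, false), i => (a + ev m i, true)
  | (a, true), i => (a - ev m i, false)

theorem nb_nb {m : Fin d → ℕ} (x : Base m) (i : Option (Fin d)) : nb (nb x i) i = x := by
  obtain ⟨a, _ | _⟩ := x <;> simp [nb]

/-- the vertices of the graph `X b` -/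
abbrev Vert (m : Fin d → ℕ) : Type := Base m × (Fin d → ZMod 2)

/-- the coordinates of a vertex; the coordinate `none` is determined by the parity `b` -/
def co {m : Fin d → ℕ} (b : Base m → ZMod 2) (u : Vert m) : Option (Fin d) → ZMod 2
  | none => ∑ i, u.2 i + b u.1
  | some i => u.2 i

/-- The graph `X b`. -/
def X {m : Fin d → ℕ} (b : Base m → ZMod 2) : SimpleGraph (Vert m) where
  Adj u v := ∃ i, v.1 = nb u.1 i ∧ co b u i = co b v i
  symm := ⟨fun u v ⟨i, h1, h2⟩ => ⟨i, by rw [h1, nb_nb], h2.symm⟩⟩
  loopless := ⟨fun u ⟨i, h1, _⟩ => by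
    obtain ⟨⟨a, _ | _⟩, t⟩ := u <;> simp [nb] at h1⟩

/-- neighbours in the torus outside `P` -/
def TAdj {m : Fin d → ℕ} (P : Finset (Tor m)) (a a' : Tor m) : Prop :=
  a ∉ P ∧ a' ∉ P ∧ ∃ i, a' = a + ev m (some i) ∨ a = a' + ev m (some i)

open Classical in
/-- the component of `a` in the torus without `P` -/
noncomputable def comp {m : Fin d → ℕ} [∀ i, NeZero (m i)] (P : Finset (Tor m)) (a : Tor m) :
    Finset (Tor m) :=
  univ.filter fun b => Relation.ReflTransGen (TAdj P) a b

/-- the big component of the torus without `P` -/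
def big {m : Fin d → ℕ} [∀ i, NeZero (m i)] (P : Finset (Tor m)) : Set (Tor m) :=
  {a | a ∉ P ∧ ∏ i, m i < 2 * (comp P a).card}

/-- The bit of the edge `i` at the base vertex `x`, for a function `z` on the edges (`z a i` belongs
to the edge between `(a, false)` and `(a + ev i, true)`). -/
def bit {m : Fin d → ℕ} (z : Tor m → Option (Fin d) → ZMod 2) : Base m → Option (Fin d) → ZMod 2
  | (a, false), i => z a i
  | (a, true), i => z (a - ev m i) i

/-- the boundary -/
def bd {m : Fin d → ℕ} (z : Tor m → Option (Fin d) → ZMod 2) (x : Base m) : ZMod 2 :=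
  ∑ i, bit z x i

/-- The generalised dihedral group of the abelian group `A`. -/
@[ext]
structure GDih (A : Type*) where
  /-- the component in `A` -/
  a : A
  /-- is the element a reflection -/
  e : Bool

namespace GDih

variable {A : Type*} [AddCommGroup A]

/-- multiplication by the sign -/
def sg (e : Bool) (a : A) : A := if e then -a else a

@[simp] theorem sg_false (a : A) : sg false a = a := rfl
@[simp] theorem sg_true (a : A) : sg true a = -a := rfl
@[simp] theorem sg_zero (e : Bool) : sg e (0 : A) = 0 := by cases e <;> simp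
theorem sg_add (e : Bool) (a b : A) : sg e (a + b) = sg e a + sg e b := by
  cases e <;> simp [add_comm]
theorem sg_xor (e f : Bool) (a : A) : sg (xor e f) a = sg e (sg f a) := by
  cases e <;> cases f <;> simp

instance : Mul (GDih A) := ⟨fun x y => ⟨x.a + sg x.e y.a, xor x.e y.e⟩⟩
instance : One (GDih A) := ⟨⟨0, false⟩⟩
instance : Inv (GDih A) := ⟨fun x => ⟨-(sg x.e x.a), x.e⟩⟩

@[simp] theorem mul_a (x y : GDih A) : (x * y).a = x.a + sg x.e y.a := rfl
@[simp] theorem mul_e (x y : GDih A) : (x * y).e = xor x.e y.e := rfl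
@[simp] theorem one_a : (1 : GDih A).a = 0 := rfl
@[simp] theorem one_e : (1 : GDih A).e = false := rfl
@[simp] theorem inv_a (x : GDih A) : x⁻¹.a = -(sg x.e x.a) := rfl
@[simp] theorem inv_e (x : GDih A) : x⁻¹.e = x.e := rfl

instance : Group (GDih A) where
  mul_assoc x y z := by
    ext1
    · simp only [mul_a, mul_e, sg_add, sg_xor, add_assoc]
    · simp only [mul_e, Bool.xor_assoc]
  one_mul x := by ext1 <;> simp
  mul_one x := by ext1 <;> simp
  inv_mul_cancel x := by
    ext1
    · simp
    · simp

/-- the underlying product -/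
def equivProd : GDih A ≃ A × Bool where
  toFun x := (x.a, x.e)
  invFun x := ⟨x.1, x.2⟩
  left_inv _ := rfl
  right_inv _ := rfl

instance [Finite A] : Finite (GDih A) := Finite.of_equiv _ equivProd.symm
noncomputable instance [Finite A] : Fintype (GDih A) := Fintype.ofFinite _

end GDih

/-- the abelian group `∏ ZMod (m i) × (ZMod 2)^d` -/
abbrev Ab (m : Fin d → ℕ) : Type := Tor m × (Fin d → ZMod 2)

/-- The connection set with the twist `β`: the reflections `(e_i, t)` with `t_i = 0`, and the
reflections `(0, t)` with `∑ t_i = β`. -/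
def S (m : Fin d → ℕ) (β : ZMod 2) : Set (GDih (Ab m)) :=
  {x | x.e = true ∧ ((∃ i, x.a.1 = Pi.single i 1 ∧ x.a.2 i = 0) ∨ (x.a.1 = 0 ∧ ∑ i, x.a.2 i = β))}

/-- the parity `β` on one side of the base graph -/
def side (m : Fin d → ℕ) (β : ZMod 2) (x : Base m) : ZMod 2 := if x.2 then β else 0

end Pool.Agent.CayWL
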