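import Pool.Agent.CayWL.Num

/-!
# Cayley graphs of large Weisfeiler-Leman dimension
-/

namespace Pool.Agent.CayWL

open Finset SRGWL

/-- the main theorem for given sides -/
theorem partA (d : ℕ) (hd : 2 ≤ d) (m : Fin d → ℕ) [∀ i, NeZero (m i)] (hm : ∀ i, 1 < m i)
    (ho : ∀ i, Odd (m i)) (k : ℕ) (hk : 9 * ((∑ i, m i) * (k + 1)) < 2 * ∏ i, m i) :
    Nat.card (GDih (Ab m)) = 2 ^ (d + 1) * ∏ i, m i ∧
      (∀ β, ∀ x ∈ S m β, x * x = 1) ∧
      (∀ β, (S m β).ncard = (d + 1) * 2 ^ (d - 1)) ∧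
      WLEquiv k (SimpleGraph.mulCayley (S m 0)) (SimpleGraph.mulCayley (S m 1)) ∧
      IsEmpty (SimpleGraph.mulCayley (S m 0) ≃g SimpleGraph.mulCayley (S m 1)) :=
  ⟨card_GDih m, fun _ _ hx => sq_of_mem_S hx, fun β => ncard_S (by omega) hm β,
    wl_main (by omega) hk 0 1, noniso_main hd hm ho⟩

/-- for equal sides both graphs are arc-transitive -/
theorem partA' (d q : ℕ) (hd : 2 ≤ d) (hq : 1 < q) (β : ZMod 2) :
    ArcTransitive (SimpleGraph.mulCayley (S (fun _ : Fin d => q) β)) :=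
  ArcTransitive.iso (cayIso (fun _ : Fin d => q) β).symm (arcTransitive (by omega) hq β)

/-- bounded valency, groups with a cyclic subgroup of bounded index, dimension `n ^ (1 - 1 / d)` -/
theorem partB (d : ℕ) (hd : 2 ≤ d) : ∃ C : ℝ, ∀ k : ℕ, 1 ≤ k →
    ∃ (G : Type) (_ : Group G) (_ : Fintype G) (S₀ S₁ : Set G),
      (Nat.card G : ℝ) ≤ C * (k : ℝ) ^ ((d : ℝ) / (d - 1)) ∧
      (∃ g : G, Nat.card G = 2 ^ d * orderOf g) ∧
      (∀ x ∈ S₀ ∪ S₁, x * x = 1) ∧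
      S₀.ncard = (d + 1) * 2 ^ (d - 1) ∧ S₁.ncard = (d + 1) * 2 ^ (d - 1) ∧
      WLEquiv k (SimpleGraph.mulCayley S₀) (SimpleGraph.mulCayley S₁) ∧
      IsEmpty (SimpleGraph.mulCayley S₀ ≃g SimpleGraph.mulCayley S₁) := by
  obtain ⟨C, hC⟩ := num d hd
  refine ⟨C, fun k hk => ?_⟩
  obtain ⟨T, hT, h1, h2⟩ := hC k hk
  have hm : ∀ i, 1 < sd d T i := sd_gt hT
  have : ∀ i, NeZero (sd d T i) := fun i => ⟨by have := hm i; omega⟩
  obtain ⟨h3, h4, h5, h6, h7⟩ := partA d hd (sd d T) hm (sd_odd d T) k (sd_cond hd hT h1)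
  refine ⟨GDih (Ab (sd d T)), inferInstance, inferInstance, S (sd d T) 0, S (sd d T) 1, h2,
    cyclic_main (by omega) (sd_odd d T) (sd_coprime d T), ?_, h5 0, h5 1, h6, h7⟩
  rintro x (hx | hx)
  · exact h4 0 x hx
  · exact h4 1 x hx

end Pool.Agent.CayWL
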