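import Pool.Agent.CayWL.Torus

/-!
# Flows modulo two outside a small set
-/

namespace Pool.Agent.CayWL

open Finset

variable {d : ℕ} {m : Fin d → ℕ}

/-- the functions on the edges of the base graph -/
abbrev Ed (m : Fin d → ℕ) : Type := Tor m → Option (Fin d) → ZMod 2

theorem bit_add (z y : Ed m) (x : Base m) (i : Option (Fin d)) :
    bit (z + y) x i = bit z x i + bit y x i := by
  obtain ⟨a, _ | _⟩ := x <;> rfl

theorem bit_nb (z : Ed m) (x : Base m) (i : Option (Fin d)) : bit z (nb x i) i = bit z x i := by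
  obtain ⟨a, _ | _⟩ := x <;> simp [bit, nb]

theorem bd_add (z y : Ed m) : bd (z + y) = bd z + bd y := by
  funext x
  simp only [bd, bit_add, Pi.add_apply, sum_add_distrib]

theorem bd_zero : bd (0 : Ed m) = 0 := by
  have h := bd_add (0 : Ed m) 0
  rw [add_zero] at h
  exact left_eq_add.1 h

/-- the edges at the torus points of `P` have the value `0` -/
def Avoid (P : Finset (Tor m)) (z : Ed m) : Prop := ∀ x : Base m, x.1 ∈ P → ∀ i, bit z x i = 0

theorem Avoid.add {P : Finset (Tor m)} {z y : Ed m} (h1 : Avoid P z) (h2 : Avoid P y) :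
    Avoid P (z + y) := fun x hx i => by rw [bit_add, h1 x hx, h2 x hx, add_zero]

theorem Avoid.zero {P : Finset (Tor m)} : Avoid P (0 : Ed m) := by
  rintro ⟨a, _ | _⟩ _ i <;> rfl

theorem char2 {ι : Type*} (f : ι → ZMod 2) : f + f = 0 := by
  funext i
  exact CharTwo.add_self_eq_zero _

/-- two base vertices are connected outside `P` -/
def Conn (P : Finset (Tor m)) (u v : Base m) : Prop :=
  ∃ z, Avoid P z ∧ bd z = Pi.single u 1 + Pi.single v 1

theorem Conn.refl {P : Finset (Tor m)} (u : Base m) : Conn P u u :=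
  ⟨0, Avoid.zero, by rw [bd_zero, char2]⟩

theorem Conn.symm {P : Finset (Tor m)} {u v : Base m} (h : Conn P u v) : Conn P v u := by
  obtain ⟨z, h1, h2⟩ := h
  exact ⟨z, h1, by rw [h2, add_comm]⟩

theorem Conn.trans {P : Finset (Tor m)} {u v w : Base m} (h : Conn P u v) (h' : Conn P v w) :
    Conn P u w := by
  obtain ⟨z, h1, h2⟩ := h
  obtain ⟨y, h3, h4⟩ := h'
  refine ⟨z + y, h1.add h3, ?_⟩
  rw [bd_add, h2, h4]
  have := char2 (Pi.single v 1 : Base m → ZMod 2)
  calc (Pi.single u 1 + Pi.single v 1 + (Pi.single v 1 + Pi.single w 1) : Base m → ZMod 2)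
      = Pi.single u 1 + (Pi.single v 1 + Pi.single v 1) + Pi.single w 1 := by abel
    _ = _ := by rw [this, add_zero]

theorem Conn.edge {P : Finset (Tor m)} {a : Tor m} (i : Option (Fin d)) (h1 : a ∉ P)
    (h2 : a + ev m i ∉ P) : Conn P (a, false) (a + ev m i, true) := by
  classical
  refine ⟨fun b j => if b = a ∧ j = i then 1 else 0, ?_, ?_⟩
  · rintro ⟨b, _ | _⟩ hb j
    · have : ¬ (b = a ∧ j = i) := by
        rintro ⟨rfl, -⟩
        exact h1 hb
      simp [bit, this]
    · have : ¬ (b - ev m j = a ∧ j = i) := by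
        rintro ⟨h3, rfl⟩
        rw [← h3, sub_add_cancel] at h2
        exact h2 hb
      simp only [bit]
      rw [if_neg this]
  · funext x
    obtain ⟨b, _ | _⟩ := x
    · have e1 : (Pi.single (a + ev m i, true) 1 : Base m → ZMod 2) (b, false) = 0 :=
        Pi.single_eq_of_ne (by simp) _
      rw [Pi.add_apply, e1, add_zero, bd]
      by_cases hb : b = a
      · subst hb
        simp [bit]
      · have e2 : (Pi.single (a, false) 1 : Base m → ZMod 2) (b, false) = 0 :=
          Pi.single_eq_of_ne (by simp [hb]) _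
        simp [bit, hb]
    · have e1 : (Pi.single (a, false) 1 : Base m → ZMod 2) (b, true) = 0 :=
        Pi.single_eq_of_ne (by simp) _
      rw [Pi.add_apply, e1, zero_add, bd]
      simp only [bit]
      by_cases hb : b = a + ev m i
      · subst hb
        rw [Pi.single_eq_same, Finset.sum_eq_single i]
        · simp
        · intro j _ hj
          simp [hj]
        · simp
      · have e2 : (Pi.single (a + ev m i, true) 1 : Base m → ZMod 2) (b, true) = 0 :=
          Pi.single_eq_of_ne (by simp [hb]) _
        rw [e2]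
        refine Finset.sum_eq_zero fun j _ => ?_
        rw [if_neg]
        rintro ⟨h3, rfl⟩
        exact hb (by rw [← h3, sub_add_cancel])

theorem Conn.same {P : Finset (Tor m)} {a : Tor m} (ha : a ∉ P) (e e' : Bool) :
    Conn P (a, e) (a, e') := by
  have h1 : Conn P (a, false) (a, true) := by
    have := Conn.edge (m := m) (P := P) (a := a) none ha (by simpa [ev] using ha)
    simpa [ev] using this
  cases e <;> cases e'
  · exact Conn.refl _
  · exact h1
  · exact h1.symm
  · exact Conn.refl _

theorem Conn.step {P : Finset (Tor m)} {a b : Tor m} (h : TAdj P a b) (e e' : Bool) :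
    Conn P (a, e) (b, e') := by
  obtain ⟨ha, hb, i, h1 | h1⟩ := h
  · rw [h1] at hb ⊢
    exact (Conn.same ha e false).trans ((Conn.edge (some i) ha hb).trans (Conn.same hb true e'))
  · rw [h1] at ha ⊢
    exact (Conn.same ha e true).trans ((Conn.edge (some i) hb ha).symm.trans (Conn.same hb false e'))

theorem Conn.path {P : Finset (Tor m)} {a b : Tor m} (ha : a ∉ P)
    (h : Relation.ReflTransGen (TAdj P) a b) (e e' : Bool) : Conn P (a, e) (b, e') := by
  induction h generalizing e' with
  | refl => exact Conn.same ha e e'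
  | tail _ h ih => exact (ih false).trans (Conn.step h false e')

variable [∀ i, NeZero (m i)]

/-- the wrong parities can be pushed into the new big component -/
theorem push {P P' : Finset (Tor m)} (hP : P ⊆ P') (hb : (big P').Nonempty)
    (g : Base m → ZMod 2) (hg : ∀ x, x.1 ∉ big P → g x = 0) :
    ∃ z, Avoid P z ∧ ∀ x, x.1 ∉ big P' → bd z x = g x := by
  classical
  obtain ⟨c, hc⟩ := hb
  have h1 : ∀ s : Finset (Base m), ∃ z, Avoid P z ∧ ∃ t : ZMod 2,
      bd z = (∑ x ∈ s, Pi.single x (g x)) + Pi.single (c, false) t := by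
    intro s
    induction s using Finset.induction_on with
    | empty => exact ⟨0, Avoid.zero, 0, by simp [bd_zero]⟩
    | insert x s hx ih =>
      obtain ⟨z, h2, t, h3⟩ := ih
      by_cases h4 : g x = 0
      · exact ⟨z, h2, t, by rw [sum_insert hx, h4, Pi.single_zero, zero_add, h3]⟩
      · have h5 : x.1 ∈ big P := by
          by_contra h
          exact h4 (hg x h)
        have h6 : g x = 1 := by
          generalize g x = y at h4 ⊢
          revert y
          decide
        obtain ⟨y, h7, h8⟩ := Conn.path (P := P) h5.1 (big_conn h5 (big_anti hP hc)) x.2 false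
        refine ⟨z + y, h2.add h7, t + 1, ?_⟩
        rw [bd_add, h3, h8, sum_insert hx, h6, Pi.single_add]
        abel
  obtain ⟨z, h2, t, h3⟩ := h1 univ
  refine ⟨z, h2, fun x hx => ?_⟩
  rw [h3, Finset.univ_sum_single, Pi.add_apply, Pi.single_eq_of_ne, add_zero]
  rintro rfl
  exact hx hc

end Pool.Agent.CayWL
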