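import Pool.Agent.CayWL.Flow

/-!
# The graphs `X b` are not distinguished by the Weisfeiler-Leman algorithm of small dimension
-/

namespace Pool.Agent.CayWL

open Finset

variable {d : ℕ} {m : Fin d → ℕ}

/-- shift the vertex by the bits of `z` -/
def shift (z : Ed m) (u : Vert m) : Vert m := (u.1, fun i => u.2 i + bit z u.1 (some i))

theorem shift_shift (z : Ed m) (u : Vert m) : shift z (shift z u) = u := by
  refine Prod.ext rfl ?_
  funext i
  simp [shift, add_assoc, CharTwo.add_self_eq_zero]

theorem shift_inj (z : Ed m) : Function.Injective (shift z) := fun u v h => by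
  rw [← shift_shift z u, h, shift_shift]

theorem co_shift {b b' : Base m → ZMod 2} {z : Ed m} {u : Vert m}
    (h : bd z u.1 = b u.1 + b' u.1) (i : Option (Fin d)) :
    co b' (shift z u) i = co b u i + bit z u.1 i := by
  rcases i with _ | i
  · have h1 : bd z u.1 = bit z u.1 none + ∑ i, bit z u.1 (some i) := by
      rw [bd, Fintype.sum_option]
    rw [h1] at h
    simp only [co, shift, sum_add_distrib]
    have h2 : ∑ i, bit z u.1 (some i) = bit z u.1 none + (b u.1 + b' u.1) := by
      rw [← h, ← add_assoc, CharTwo.add_self_eq_zero, zero_add]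
    rw [h2]
    have h3 := CharTwo.add_self_eq_zero (b' u.1)
    linear_combination h3
  · rfl

theorem adj_shift {b b' : Base m → ZMod 2} {z : Ed m} {u v : Vert m}
    (hu : bd z u.1 = b u.1 + b' u.1) (hv : bd z v.1 = b v.1 + b' v.1) :
    (X b').Adj (shift z u) (shift z v) ↔ (X b).Adj u v := by
  change (∃ i, v.1 = nb u.1 i ∧ co b' (shift z u) i = co b' (shift z v) i) ↔
    (∃ i, v.1 = nb u.1 i ∧ co b u i = co b v i)
  refine exists_congr fun i => and_congr_right fun h => ?_
  rw [co_shift hu, co_shift hv, h, bit_nb]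
  exact add_left_inj _

variable [∀ i, NeZero (m i)]

/-- the torus points of the pebbles -/
def seen {ι : Type*} [Fintype ι] (s : ι → Vert m) : Finset (Tor m) :=
  univ.image fun i => (s i).1.1

theorem card_seen {ι : Type*} [Fintype ι] (s : ι → Vert m) :
    (seen s).card ≤ Fintype.card ι := card_image_le.trans (by rw [card_univ])

theorem mem_seen {ι : Type*} [Fintype ι] (s : ι → Vert m) (i : ι) : (s i).1.1 ∈ seen s :=
  mem_image_of_mem _ (mem_univ i)

theorem seen_shift {ι : Type*} [Fintype ι] (s : ι → Vert m) (z : Ed m) :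
    seen (fun i => shift z (s i)) = seen s := rfl

theorem seen_comp {ι κ : Type*} [Fintype ι] [Fintype κ] (s : ι → Vert m) (f : κ → ι) :
    seen (s ∘ f) ⊆ seen s := by
  intro a ha
  obtain ⟨i, -, rfl⟩ := mem_image.1 ha
  exact mem_seen s (f i)

/-- the edge function has the right parities outside the big component -/
def Good (b b' : Base m → ZMod 2) (P : Finset (Tor m)) (z : Ed m) : Prop :=
  ∀ x : Base m, x.1 ∉ big P → bd z x = b x + b' x

theorem Good.anti {b b' : Base m → ZMod 2} {P P' : Finset (Tor m)} (hP : P ⊆ P') {z : Ed m}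
    (h : Good b b' P' z) : Good b b' P z := fun x hx => h x fun hx' => hx (big_anti hP hx')

theorem Good.ext {b b' : Base m → ZMod 2} {P P' : Finset (Tor m)} (hP : P ⊆ P')
    (hb : (big P').Nonempty) {z : Ed m} (h : Good b b' P z) :
    ∃ y, Avoid P y ∧ Good b b' P' (z + y) := by
  obtain ⟨y, h1, h2⟩ := push hP hb (fun x => bd z x + (b x + b' x)) fun x hx => by
    rw [h x hx, CharTwo.add_self_eq_zero]
  refine ⟨y, h1, fun x hx => ?_⟩
  rw [bd_add, Pi.add_apply, h2 x hx, ← add_assoc, CharTwo.add_self_eq_zero, zero_add]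

theorem good_empty (b b' : Base m → ZMod 2) : Good b b' ∅ 0 := by
  intro x hx
  rw [big_empty] at hx
  exact absurd (Set.mem_univ _) hx

/-- the invariant of the game -/
def Inv (b b' : Base m → ZMod 2) {ι : Type*} [Fintype ι] (s s' : ι → Vert m) : Prop :=
  ∃ z, Good b b' (seen s) z ∧ ∀ i, s' i = shift z (s i)

variable {b b' : Base m → ZMod 2}

theorem Inv.comp {ι κ : Type*} [Fintype ι] [Fintype κ] {s s' : ι → Vert m} (h : Inv b b' s s')
    (f : κ → ι) : Inv b b' (s ∘ f) (s' ∘ f) := by
  obtain ⟨z, h1, h2⟩ := h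
  exact ⟨z, h1.anti (seen_comp s f), fun i => h2 (f i)⟩

theorem Inv.eq_iff {ι : Type*} [Fintype ι] {s s' : ι → Vert m} (h : Inv b b' s s') (i j : ι) :
    s i = s j ↔ s' i = s' j := by
  obtain ⟨z, -, h2⟩ := h
  rw [h2, h2]
  exact (shift_inj z).eq_iff.symm

theorem Inv.adj_iff {ι : Type*} [Fintype ι] {s s' : ι → Vert m} (h : Inv b b' s s') (i j : ι) :
    (X b).Adj (s i) (s j) ↔ (X b').Adj (s' i) (s' j) := by
  obtain ⟨z, h1, h2⟩ := h
  rw [h2, h2]
  exact (adj_shift (h1 _ fun h => h.1 (mem_seen s i)) (h1 _ fun h => h.1 (mem_seen s j))).symm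

/-- add a vertex -/
def ext {ι : Type*} (s : ι → Vert m) (v : Vert m) : Option ι → Vert m
  | none => v
  | some i => s i

theorem seen_ext {ι : Type*} [Fintype ι] (s : ι → Vert m) (v : Vert m) :
    seen (ext s v) = insert v.1.1 (seen s) := by
  ext a
  simp only [seen, mem_image, mem_univ, true_and, mem_insert]
  constructor
  · rintro ⟨_ | i, h⟩
    · exact Or.inl h.symm
    · exact Or.inr ⟨i, h⟩
  · rintro (h | ⟨i, h⟩)
    · exact ⟨none, h.symm⟩
    · exact ⟨some i, h⟩

theorem shift_add {z y : Ed m} {u : Vert m} {P : Finset (Tor m)} (hy : Avoid P y)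
    (hu : u.1.1 ∈ P) : shift (z + y) u = shift z u := by
  refine Prod.ext rfl ?_
  funext i
  simp only [shift, bit_add, hy u.1 hu, add_zero]

/-- one round of the game -/
theorem Inv.step (hd : 0 < d) {ι : Type*} [Fintype ι]
    (hk : 9 * ((∑ i, m i) * (Fintype.card ι + 1)) < 2 * ∏ i, m i) {s s' : ι → Vert m}
    (h : Inv b b' s s') : ∃ e : Vert m ≃ Vert m, ∀ v, Inv b b' (ext s v) (ext s' (e v)) := by
  obtain ⟨z, h1, h2⟩ := h
  have h3 : ∀ a : Tor m, ∃ y, Avoid (seen s) y ∧ Good b b' (insert a (seen s)) (z + y) := by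
    intro a
    refine h1.ext (subset_insert _ _) (big_nonempty hd (lt_of_le_of_lt ?_ hk))
    exact Nat.mul_le_mul_left _ (Nat.mul_le_mul_left _
      ((card_insert_le _ _).trans (Nat.add_le_add_right (card_seen s) 1)))
  choose y h4 h5 using h3
  refine ⟨⟨fun v => shift (z + y v.1.1) v, fun v => shift (z + y v.1.1) v, fun v =>
    shift_shift _ v, fun v => shift_shift _ v⟩, fun v => ⟨z + y v.1.1, ?_, ?_⟩⟩
  · rw [seen_ext]
    exact h5 _
  · rintro (_ | i)
    · rfl
    · exact (h2 i).trans (shift_add (h4 _) (mem_seen s i)).symm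

/-- the first configuration -/
theorem Inv.start (hd : 0 < d) {ι : Type*} [Fintype ι]
    (hk : 9 * ((∑ i, m i) * Fintype.card ι) < 2 * ∏ i, m i) :
    ∃ F : (ι → Vert m) ≃ (ι → Vert m), ∀ s, Inv b b' s (F s) := by
  have h3 : ∀ s : ι → Vert m, ∃ y, Avoid ∅ y ∧ Good b b' (seen s) (0 + y) := by
    intro s
    refine (good_empty b b').ext (empty_subset _) (big_nonempty hd (lt_of_le_of_lt ?_ hk))
    exact Nat.mul_le_mul_left _ (Nat.mul_le_mul_left _ (card_seen s))
  have h4 : ∀ P : Finset (Tor m), ∃ y, ∀ s : ι → Vert m, seen s = P → Good b b' P y := by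
    intro P
    by_cases hP : ∃ s : ι → Vert m, seen s = P
    · obtain ⟨s, rfl⟩ := hP
      obtain ⟨y, -, h⟩ := h3 s
      exact ⟨_, fun _ _ => h⟩
    · exact ⟨0, fun s hs => absurd ⟨s, hs⟩ hP⟩
  choose y hy using h4
  refine ⟨⟨fun s i => shift (y (seen s)) (s i), fun s i => shift (y (seen s)) (s i), fun s => ?_,
    fun s => ?_⟩, fun s => ⟨y (seen s), hy _ s rfl, fun i => rfl⟩⟩
  · funext i
    exact shift_shift _ _
  · funext i
    exact shift_shift _ _

open SRGWL in
theorem Inv.col_eq (hd : 0 < d) {k : ℕ} (hk : 9 * ((∑ i, m i) * (k + 1)) < 2 * ∏ i, m i) (r : ℕ) :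
    ∀ s s' : Fin k → Vert m, Inv b b' s s' → col (X b) k r s = col (X b') k r s' := by
  induction r with
  | zero =>
    intro s s' h
    refine Prod.ext ?_ ?_
    · funext i j
      exact propext (h.eq_iff i j)
    · funext i j
      exact propext (h.adj_iff i j)
  | succ r ih =>
    intro s s' h
    refine Prod.ext (ih s s' h) ?_
    obtain ⟨e, he⟩ := h.step hd (by simpa using hk)
    change Multiset.map _ _ = Multiset.map _ _
    have h2 : (Finset.univ : Finset (Vert m)).val = (Finset.univ : Finset (Vert m)).val.map e := by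
      have h3 := congrArg Finset.val (Finset.map_univ_equiv e)
      rw [Finset.map_val] at h3
      exact h3.symm
    conv_rhs => rw [h2, Multiset.map_map]
    apply Multiset.map_congr rfl
    intro v _
    funext i
    have h4 := (he v).comp (fun j : Fin k => if j = i then none else some j)
    have e1 : ∀ (s : Fin k → Vert m) (v : Vert m), Function.update s i v =
        ext s v ∘ fun j : Fin k => if j = i then none else some j := by
      intro s v
      funext j
      by_cases hj : j = i
      · subst hj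
        simp [ext]
      · simp [ext, hj]
    rw [Function.comp_apply, e1, e1]
    exact ih _ _ h4

open SRGWL in
/-- `k`-dimensional Weisfeiler-Leman does not distinguish the graphs `X b` and `X b'`. -/
theorem wlEquiv (hd : 0 < d) {k : ℕ} (hk : 9 * ((∑ i, m i) * (k + 1)) < 2 * ∏ i, m i)
    (b b' : Base m → ZMod 2) : WLEquiv k (X b) (X b') := by
  intro r
  obtain ⟨F, hF⟩ := Inv.start (b := b) (b' := b') hd (ι := Fin k) (lt_of_le_of_lt
    (Nat.mul_le_mul_left _ (Nat.mul_le_mul_left _ (by simp))) hk)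
  have h2 : (Finset.univ : Finset (Fin k → Vert m)).val =
      (Finset.univ : Finset (Fin k → Vert m)).val.map F := by
    have h3 := congrArg Finset.val (Finset.map_univ_equiv F)
    rw [Finset.map_val] at h3
    exact h3.symm
  conv_rhs => rw [h2, Multiset.map_map]
  apply Multiset.map_congr rfl
  intro s _
  exact Inv.col_eq hd hk r s (F s) (hF s)

end Pool.Agent.CayWL
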