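import Pool.Agent.CayWL.Cayley

/-!
# The pairs of Cayley graphs
-/

namespace Pool.Agent.CayWL

open Finset SRGWL

variable {d : ℕ} {m : Fin d → ℕ}

theorem side_zero : side m 0 = 0 := by
  funext x
  simp [side]

theorem sum_side [∀ i, NeZero (m i)] (ho : ∀ i, Odd (m i)) : ∑ x, side m 1 x = 1 := by
  rw [Fintype.sum_prod_type_right, Fintype.sum_bool]
  simp only [side, if_true, Bool.false_eq_true, if_false, sum_const_zero, add_zero, sum_const,
    card_univ, card_Tor, nsmul_eq_mul, mul_one]
  have h : Odd (∏ i, m i) := by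
    refine Finset.prod_induction m Odd (fun a b ha hb => ha.mul hb) odd_one fun i _ => ho i
  obtain ⟨c, hc⟩ := h
  rw [hc]
  push_cast
  have : (2 : ZMod 2) = 0 := rfl
  rw [this]
  ring

theorem card_GDih (m : Fin d → ℕ) : Nat.card (GDih (Ab m)) = 2 ^ (d + 1) * ∏ i, m i := by
  rw [Nat.card_congr (GDih.equivProd (A := Ab m)), Nat.card_prod, Nat.card_prod, Nat.card_pi,
    Nat.card_fun]
  simp only [Nat.card_zmod, Nat.card_eq_fintype_card, Fintype.card_bool, Fintype.card_fin,
    ZMod.card]
  rw [pow_succ]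
  ring

/-- the Weisfeiler-Leman part -/
theorem wl_main [∀ i, NeZero (m i)] (hd : 0 < d) {k : ℕ}
    (hk : 9 * ((∑ i, m i) * (k + 1)) < 2 * ∏ i, m i) (β β' : ZMod 2) :
    WLEquiv k (SimpleGraph.mulCayley (S m β)) (SimpleGraph.mulCayley (S m β')) :=
  WLEquiv.iso (wlEquiv hd hk (side m β) (side m β')) (cayIso m β).symm (cayIso m β').symm

/-- the graphs are not isomorphic -/
theorem noniso_main [∀ i, NeZero (m i)] (hd : 2 ≤ d) (hm : ∀ i, 1 < m i) (ho : ∀ i, Odd (m i)) :
    IsEmpty (SimpleGraph.mulCayley (S m 0) ≃g SimpleGraph.mulCayley (S m 1)) := by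
  refine ⟨fun φ => ?_⟩
  have ψ : X (0 : Base m → ZMod 2) ≃g X (side m 1) := by
    have h := ((cayIso m 0).symm.trans φ).trans (cayIso m 1)
    rwa [side_zero] at h
  have hT : Thin m := thin_of_two (fun i => by
    obtain ⟨c, hc⟩ := ho i
    have := hm i
    omega) hd
  have h := iso_sum hm hd hT ψ
  rw [sum_side ho] at h
  exact one_ne_zero h

/-- if the sides are pairwise coprime, the group has a cyclic subgroup of index `2 ^ d` -/
theorem cyclic_main (hd : 0 < d) (ho : ∀ i, Odd (m i))
    (hc : Pairwise fun i j => Nat.Coprime (m i) (m j)) :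
    ∃ g : GDih (Ab m), Nat.card (GDih (Ab m)) = 2 ^ d * orderOf g := by
  refine ⟨⟨(fun _ => 1, fun _ => 1), false⟩, ?_⟩
  have h1 : ∀ n : ℕ, (⟨(fun _ => 1, fun _ => 1), false⟩ : GDih (Ab m)) ^ n =
      ⟨(fun _ => (n : ZMod _), fun _ => (n : ZMod 2)), false⟩ := by
    intro n
    induction n with
    | zero =>
      rw [pow_zero]
      ext1
      · ext i
        · simp
        · simp
      · simp
    | succ n ih =>
      rw [pow_succ, ih]
      ext1
      · ext i
        · simp
        · simp
      · simp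
  have h2 : orderOf (⟨(fun _ => 1, fun _ => 1), false⟩ : GDih (Ab m)) = 2 * ∏ i, m i := by
    apply Nat.dvd_antisymm
    · refine orderOf_dvd_of_pow_eq_one ?_
      rw [h1]
      ext1
      · refine Prod.ext ?_ ?_
        · funext i
          change ((2 * ∏ i, m i : ℕ) : ZMod (m i)) = 0
          rw [ZMod.natCast_eq_zero_iff]
          exact (dvd_prod_of_mem m (mem_univ i)).mul_left 2
        · funext i
          change ((2 * ∏ i, m i : ℕ) : ZMod 2) = 0
          rw [ZMod.natCast_eq_zero_iff]
          exact dvd_mul_right _ _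
      · rfl
    · have h3 := pow_orderOf_eq_one (⟨(fun _ => 1, fun _ => 1), false⟩ : GDih (Ab m))
      rw [h1] at h3
      have h4 := congrArg (fun g : GDih (Ab m) => g.a) h3
      simp only [GDih.one_a] at h4
      have h5 : ∀ i, m i ∣ orderOf (⟨(fun _ => 1, fun _ => 1), false⟩ : GDih (Ab m)) := by
        intro i
        rw [← ZMod.natCast_eq_zero_iff]
        exact congrFun (congrArg Prod.fst h4) i
      have h6 : 2 ∣ orderOf (⟨(fun _ => 1, fun _ => 1), false⟩ : GDih (Ab m)) := by
        rw [← ZMod.natCast_eq_zero_iff]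
        exact congrFun (congrArg Prod.snd h4) ⟨0, hd⟩
      have h7 : Nat.Coprime 2 (∏ i, m i) := by
        rw [Nat.coprime_two_left]
        exact Finset.prod_induction m Odd (fun a b ha hb => ha.mul hb) odd_one fun i _ => ho i
      refine h7.mul_dvd_of_dvd_of_dvd h6 ?_
      refine Finset.prod_dvd_of_isRelPrime (fun i _ j _ hij =>
        Nat.coprime_iff_isRelPrime.1 (hc hij)) fun i _ => h5 i
  rw [h2, card_GDih, pow_succ]
  ring

end Pool.Agent.CayWL
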