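import Pool.Agent.CayWL.Count

/-!
# Polynomial form
-/

namespace Pool.Agent.CayWL

open Finset SRGWL

/-- pairwise coprime odd numbers -/
def sd (d T : ℕ) (i : Fin d) : ℕ := 2 * d.factorial * T * (i + 1) + 1

theorem sd_odd (d T : ℕ) (i : Fin d) : Odd (sd d T i) :=
  ⟨d.factorial * T * (i + 1), by rw [sd]; ring⟩

theorem sd_coprime (d T : ℕ) : Pairwise fun i j : Fin d => Nat.Coprime (sd d T i) (sd d T j) := by
  intro i j hij
  wlog h : i < j generalizing i j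
  · exact (this hij.symm (lt_of_le_of_ne (not_lt.1 h) hij.symm)).symm
  refine Nat.Coprime.symm ?_
  rw [Nat.coprime_iff_gcd_eq_one]
  by_contra hne
  obtain ⟨p, hp, hpd⟩ := Nat.exists_prime_and_dvd hne
  have h1 : p ∣ sd d T j := hpd.trans (Nat.gcd_dvd_left _ _)
  have h2 : p ∣ sd d T i := hpd.trans (Nat.gcd_dvd_right _ _)
  have h3 : sd d T j - sd d T i = 2 * d.factorial * T * (j - i) := by
    rw [sd, sd]
    obtain ⟨c, hc⟩ := Nat.exists_eq_add_of_lt (Fin.lt_def.1 h)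
    rw [hc]
    have : (i : ℕ) + c + 1 - i = c + 1 := by omega
    rw [this]
    have e : 2 * d.factorial * T * (↑i + c + 1 + 1) + 1 =
        2 * d.factorial * T * (c + 1) + (2 * d.factorial * T * (↑i + 1) + 1) := by ring
    rw [e, Nat.add_sub_cancel]
  have h4 : p ∣ 2 * d.factorial * T * (j - i) := h3 ▸ Nat.dvd_sub h1 h2
  have h5 : p ∣ 2 * d.factorial * T := by
    rcases (hp.dvd_mul).1 h4 with h | h
    · exact h
    · have h6 : ((j : ℕ) - i) ∣ d.factorial :=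
        Nat.dvd_factorial (by have := Fin.lt_def.1 ‹i < j›; omega) (by have := j.2; omega)
      exact ((h.trans h6).mul_left 2).mul_right T
  have h6 : p ∣ 1 := by
    have : sd d T i = 2 * d.factorial * T * (i + 1) + 1 := rfl
    rw [this] at h2
    exact (Nat.dvd_add_right (h5.mul_right _)).1 h2
  exact hp.one_lt.ne' (Nat.dvd_one.1 h6)

/-- the constant -/
def cst (d : ℕ) : ℕ := 2 * d.factorial * d + 1

theorem sd_le {d T : ℕ} (hT : 1 ≤ T) (i : Fin d) : sd d T i ≤ cst d * T := by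
  rw [sd, cst, add_mul, one_mul]
  refine Nat.add_le_add ?_ hT
  calc 2 * d.factorial * T * (↑i + 1) ≤ 2 * d.factorial * T * d := Nat.mul_le_mul_left _ i.2
    _ = _ := by ring

theorem le_sd {d T : ℕ} (i : Fin d) : T ≤ sd d T i := by
  rw [sd]
  have h1 : 1 ≤ d.factorial := Nat.factorial_pos d
  calc T = 1 * T * 1 := by ring
    _ ≤ 2 * d.factorial * T * (↑i + 1) := by gcongr <;> omega
    _ ≤ _ := Nat.le_succ _

theorem sd_gt {d T : ℕ} (hT : 1 ≤ T) (i : Fin d) : 1 < sd d T i := by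
  rw [sd]
  have h1 : 1 ≤ d.factorial := Nat.factorial_pos d
  have : 0 < 2 * d.factorial * T * (↑i + 1) := by positivity
  omega

/-- the condition on `k` -/
theorem sd_cond {d T k : ℕ} (hd : 2 ≤ d) (hT : 1 ≤ T)
    (h : 9 * (d * cst d * (k + 1)) ≤ T ^ (d - 1)) :
    9 * ((∑ i, sd d T i) * (k + 1)) < 2 * ∏ i, sd d T i := by
  have h1 : ∑ i, sd d T i ≤ d * (cst d * T) := by
    calc ∑ i, sd d T i ≤ ∑ _i : Fin d, cst d * T := sum_le_sum fun i _ => sd_le hT i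
      _ = _ := by simp
  have h2 : T ^ d ≤ ∏ i, sd d T i := by
    calc T ^ d = ∏ _i : Fin d, T := by simp
      _ ≤ _ := prod_le_prod' fun i _ => le_sd i
  have h3 : 0 < T ^ d := by positivity
  calc 9 * ((∑ i, sd d T i) * (k + 1)) ≤ 9 * (d * (cst d * T) * (k + 1)) := by gcongr
    _ = 9 * (d * cst d * (k + 1)) * T := by ring
    _ ≤ T ^ (d - 1) * T := Nat.mul_le_mul_right _ h
    _ = T ^ d := by rw [← pow_succ]; congr 1; omega
    _ < 2 * T ^ d := by omega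
    _ ≤ _ := Nat.mul_le_mul_left _ h2

theorem card_sd {d T : ℕ} (hT : 1 ≤ T) :
    Nat.card (GDih (Ab (sd d T))) ≤ 2 ^ (d + 1) * (cst d * T) ^ d := by
  rw [card_GDih]
  refine Nat.mul_le_mul_left _ ?_
  calc ∏ i, sd d T i ≤ ∏ _i : Fin d, cst d * T := prod_le_prod' fun i _ => sd_le hT i
    _ = _ := by simp

/-- the size of the graphs is at most `C k ^ (d / (d - 1))` -/
theorem num (d : ℕ) (hd : 2 ≤ d) : ∃ C : ℝ, ∀ k : ℕ, 1 ≤ k → ∃ T : ℕ, 1 ≤ T ∧
    9 * (d * cst d * (k + 1)) ≤ T ^ (d - 1) ∧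
    (Nat.card (GDih (Ab (sd d T))) : ℝ) ≤ C * (k : ℝ) ^ ((d : ℝ) / (d - 1)) := by
  have hd1 : (0 : ℝ) < (d : ℝ) - 1 := by
    have : (2 : ℝ) ≤ d := by exact_mod_cast hd
    linarith
  set A : ℝ := 18 * (d * cst d) with hA
  have hA1 : 1 ≤ A := by
    have h1 : (1 : ℝ) ≤ d := by exact_mod_cast (by omega : 1 ≤ d)
    have h2 : (1 : ℝ) ≤ cst d := by
      exact_mod_cast (by rw [cst]; omega : 1 ≤ cst d)
    have h3 : (1 : ℝ) ≤ d * cst d := one_le_mul_of_one_le_of_one_le h1 h2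
    linarith
  refine ⟨2 ^ (d + 1) * (cst d * (2 * A ^ ((1 : ℝ) / (d - 1)))) ^ d, fun k hk => ?_⟩
  have hk1 : (1 : ℝ) ≤ k := by exact_mod_cast hk
  have hAk : 1 ≤ A * k := one_le_mul_of_one_le_of_one_le hA1 hk1
  set x : ℝ := (A * k) ^ ((1 : ℝ) / (d - 1)) with hx
  have hx1 : 1 ≤ x := Real.one_le_rpow hAk (by positivity)
  refine ⟨⌈x⌉₊, Nat.one_le_iff_ne_zero.2 (Nat.ceil_pos.2 (by linarith)).ne', ?_, ?_⟩
  · have h1 : x ^ (d - 1) = A * k := by
      rw [hx, ← Real.rpow_natCast, ← Real.rpow_mul (by linarith), Nat.cast_sub (by omega),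
        Nat.cast_one, div_mul_cancel₀ _ hd1.ne', Real.rpow_one]
    have h2 : (9 * (d * cst d * (k + 1)) : ℝ) ≤ (⌈x⌉₊ : ℝ) ^ (d - 1) := by
      calc (9 * (d * cst d * (k + 1)) : ℝ) ≤ A * k := by
            rw [hA]
            have : (0 : ℝ) ≤ d * cst d := by positivity
            nlinarith
        _ = x ^ (d - 1) := h1.symm
        _ ≤ _ := by
            gcongr
            exact Nat.le_ceil x
    exact_mod_cast h2
  · have hT : 1 ≤ ⌈x⌉₊ := Nat.one_le_iff_ne_zero.2 (Nat.ceil_pos.2 (by linarith)).ne'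
    have h1 : (⌈x⌉₊ : ℝ) ≤ 2 * x := by
      have := Nat.ceil_lt_add_one (show 0 ≤ x by linarith)
      linarith
    have h2 : (Nat.card (GDih (Ab (sd d ⌈x⌉₊))) : ℝ) ≤ 2 ^ (d + 1) * (cst d * ⌈x⌉₊) ^ d := by
      exact_mod_cast card_sd hT
    have h3 : x = A ^ ((1 : ℝ) / (d - 1)) * (k : ℝ) ^ ((1 : ℝ) / (d - 1)) := by
      rw [hx, Real.mul_rpow (by linarith) (by linarith)]
    have h4 : ((k : ℝ) ^ ((1 : ℝ) / (d - 1))) ^ d = (k : ℝ) ^ ((d : ℝ) / (d - 1)) := by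
      rw [← Real.rpow_natCast, ← Real.rpow_mul (by linarith)]
      congr 1
      ring
    calc (Nat.card (GDih (Ab (sd d ⌈x⌉₊))) : ℝ) ≤ 2 ^ (d + 1) * (cst d * ⌈x⌉₊) ^ d := h2
      _ ≤ 2 ^ (d + 1) * (cst d * (2 * x)) ^ d := by gcongr
      _ = 2 ^ (d + 1) * (cst d * (2 * A ^ ((1 : ℝ) / (d - 1)))) ^ d *
          ((k : ℝ) ^ ((1 : ℝ) / (d - 1))) ^ d := by
          rw [h3, mul_assoc (2 ^ (d + 1) : ℝ), ← mul_pow]
          congr 2
          ring
      _ = _ := by rw [h4]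

end Pool.Agent.CayWL
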