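import Pool.Agent.CayWL.Defs

/-!
# Isoperimetry in the torus: the big component outside a small set
-/

namespace Pool.Agent.CayWL

open Finset

variable {d : ℕ} {m : Fin d → ℕ}

theorem TAdj.symm {P : Finset (Tor m)} {a a' : Tor m} (h : TAdj P a a') : TAdj P a' a :=
  ⟨h.2.1, h.1, h.2.2.imp fun _ h => h.symm⟩

theorem TAdj.mono {P P' : Finset (Tor m)} (hP : P ⊆ P') {a a' : Tor m} (h : TAdj P' a a') :
    TAdj P a a' :=
  ⟨fun h' => h.1 (hP h'), fun h' => h.2.1 (hP h'), h.2.2⟩

theorem rtg_symm {P : Finset (Tor m)} {a a' : Tor m} (h : Relation.ReflTransGen (TAdj P) a a') :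
    Relation.ReflTransGen (TAdj P) a' a := by
  induction h with
  | refl => exact Relation.ReflTransGen.refl
  | tail _ h ih => exact (Relation.ReflTransGen.single h.symm).trans ih

/-- unions of components -/
def Closed (P : Finset (Tor m)) (A : Set (Tor m)) : Prop :=
  ∀ a b, TAdj P a b → a ∈ A → b ∈ A

variable [∀ i, NeZero (m i)]

theorem line_mem {P : Finset (Tor m)} {A : Set (Tor m)} (hA : Closed P A) (u : Tor m) (i : Fin d)
    (hP : ∀ j, Function.update u i j ∉ P) (j j' : ZMod (m i))
    (hj : Function.update u i j ∈ A) : Function.update u i j' ∈ A := by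
  have h1 : ∀ n : ℕ, Function.update u i (j + n) ∈ A := by
    intro n
    induction n with
    | zero => simpa using hj
    | succ n ih =>
      refine hA _ _ ⟨hP _, hP _, i, Or.inl ?_⟩ ih
      funext l
      by_cases h : l = i
      · subst h
        simp [ev, add_assoc]
      · simp [ev, h]
  have := h1 (j' - j).val
  rwa [ZMod.natCast_zmod_val, add_sub_cancel] at this

/-- the points whose line in direction `i` meets `P` -/
def B (P : Finset (Tor m)) (i : Fin d) : Finset (Tor m) :=
  univ.filter fun u => ∃ j, Function.update u i j ∈ P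

theorem card_B_le (P : Finset (Tor m)) (i : Fin d) : (B P i).card ≤ m i * P.card := by
  have h1 : B P i ⊆ ((univ : Finset (ZMod (m i))) ×ˢ P).image
      fun q => Function.update q.2 i q.1 := by
    intro u hu
    obtain ⟨j, hj⟩ := (mem_filter.1 hu).2
    refine mem_image.2 ⟨(u i, Function.update u i j), by simp [hj], by simp⟩
  refine (card_le_card h1).trans (card_image_le.trans ?_)
  rw [card_product, card_univ, ZMod.card]

/-- the first `n` coordinates of `y`, the others of `x` -/
def hyb (n : ℕ) (x y : Tor m) : Tor m := fun l => if (l : ℕ) < n then y l else x l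

theorem isop {P A : Finset (Tor m)} (hA : Closed P (A : Set (Tor m))) :
    A.card * Aᶜ.card ≤ (∑ i, m i) * P.card * Fintype.card (Tor m) := by
  have h1 : A ×ˢ Aᶜ ⊆ (univ : Finset (Fin d)).biUnion fun i =>
      (univ : Finset (Tor m × Tor m)).filter fun q => hyb i q.1 q.2 ∈ B P i := by
    rintro ⟨x, y⟩ hq
    rw [mem_product, mem_compl] at hq
    obtain ⟨hx, hy⟩ := hq
    simp only [mem_biUnion, mem_univ, true_and, mem_filter]
    by_contra h
    push Not at h
    have h2 : ∀ n ≤ d, hyb n x y ∈ A := by
      intro n
      induction n with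
      | zero =>
        intro _
        have : hyb 0 x y = x := by
          funext l
          simp [hyb]
        rwa [this]
      | succ n ih =>
        intro hn
        have h3 := ih (by omega)
        have h4 := h ⟨n, by omega⟩
        rw [B, mem_filter] at h4
        push Not at h4
        have h5 := line_mem hA (hyb n x y) ⟨n, by omega⟩ (h4 (mem_univ _))
          (hyb n x y ⟨n, by omega⟩) (y ⟨n, by omega⟩) (by simpa using h3)
        have h6 : Function.update (hyb n x y) ⟨n, by omega⟩ (y ⟨n, by omega⟩) = hyb (n + 1) x y := by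
          funext l
          by_cases hl : l = ⟨n, by omega⟩
          · subst hl
            simp [hyb]
          · have hl' : (l : ℕ) ≠ n := fun h => hl (Fin.ext h)
            rw [Function.update_of_ne hl]
            have : ((l : ℕ) < n + 1) ↔ ((l : ℕ) < n) := by omega
            simp [hyb, this]
        rw [h6] at h5
        exact_mod_cast h5
    have h7 := h2 d le_rfl
    have h8 : hyb d x y = y := by
      funext l
      simp [hyb]
    rw [h8] at h7
    exact hy h7
  have h2 : ∀ i : Fin d, ((univ : Finset (Tor m × Tor m)).filter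
      fun q => hyb i q.1 q.2 ∈ B P i).card ≤ m i * P.card * Fintype.card (Tor m) := by
    intro i
    have h3 : ((univ : Finset (Tor m × Tor m)).filter
        fun q => hyb i q.1 q.2 ∈ B P i).card ≤ (B P i ×ˢ (univ : Finset (Tor m))).card := by
      refine card_le_card_of_injOn (fun q => (hyb i q.1 q.2, hyb i q.2 q.1)) ?_ ?_
      · intro q hq
        simpa using hq
      · rintro ⟨x, y⟩ _ ⟨x', y'⟩ _ h
        simp only [Prod.mk.injEq] at h
        obtain ⟨h4, h5⟩ := h
        refine Prod.ext ?_ ?_
        · funext l
          have e1 := congrFun h4 l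
          have e2 := congrFun h5 l
          simp only [hyb] at e1 e2
          by_cases hl : (l : ℕ) < i
          · simpa [hl] using e2
          · simpa [hl] using e1
        · funext l
          have e1 := congrFun h4 l
          have e2 := congrFun h5 l
          simp only [hyb] at e1 e2
          by_cases hl : (l : ℕ) < i
          · simpa [hl] using e1
          · simpa [hl] using e2
    refine h3.trans ?_
    rw [card_product, card_univ]
    exact Nat.mul_le_mul_right _ (card_B_le P i)
  calc A.card * Aᶜ.card = (A ×ˢ Aᶜ).card := (card_product _ _).symm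
    _ ≤ _ := card_le_card h1
    _ ≤ ∑ i : Fin d, ((univ : Finset (Tor m × Tor m)).filter
      fun q => hyb i q.1 q.2 ∈ B P i).card := card_biUnion_le
    _ ≤ ∑ i : Fin d, m i * P.card * Fintype.card (Tor m) := sum_le_sum fun i _ => h2 i
    _ = _ := by rw [← Finset.sum_mul, ← Finset.sum_mul]

theorem card_Tor : Fintype.card (Tor m) = ∏ i, m i := by
  rw [Fintype.card_pi]
  simp

theorem mem_comp {P : Finset (Tor m)} {a b : Tor m} :
    b ∈ comp P a ↔ Relation.ReflTransGen (TAdj P) a b := by
  simp [comp]

theorem comp_closed (P : Finset (Tor m)) (a : Tor m) : Closed P (comp P a : Set (Tor m)) := by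
  intro b c h hb
  rw [Finset.mem_coe, mem_comp] at hb ⊢
  exact hb.tail h

theorem big_conn {P : Finset (Tor m)} {a b : Tor m} (ha : a ∈ big P) (hb : b ∈ big P) :
    Relation.ReflTransGen (TAdj P) a b := by
  have h1 : ¬ Disjoint (comp P a) (comp P b) := by
    intro h
    have h2 := card_union_of_disjoint h
    have h3 := card_le_univ (comp P a ∪ comp P b)
    rw [card_Tor] at h3
    have h4 := ha.2
    have h5 := hb.2
    omega
  rw [not_disjoint_iff] at h1
  obtain ⟨c, h2, h3⟩ := h1
  rw [mem_comp] at h2 h3
  exact h2.trans (rtg_symm h3)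

theorem big_anti {P P' : Finset (Tor m)} (hP : P ⊆ P') : big P' ⊆ big P := by
  intro a ha
  refine ⟨fun h => ha.1 (hP h), lt_of_lt_of_le ha.2 ?_⟩
  refine Nat.mul_le_mul_left _ (card_le_card ?_)
  intro b hb
  rw [mem_comp] at hb ⊢
  induction hb with
  | refl => exact Relation.ReflTransGen.refl
  | tail _ h ih => exact ih.tail (h.mono hP)

theorem card_pos_Tor : 0 < Fintype.card (Tor m) := Fintype.card_pos

theorem big_empty : big (∅ : Finset (Tor m)) = Set.univ := by
  ext a
  simp only [Set.mem_univ, iff_true]
  refine ⟨Finset.notMem_empty _, ?_⟩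
  have h1 := isop (comp_closed (∅ : Finset (Tor m)) a)
  rw [card_empty, mul_zero, zero_mul, Nat.le_zero, mul_eq_zero] at h1
  have h2 : (comp (∅ : Finset (Tor m)) a).card ≠ 0 := by
    rw [Ne, card_eq_zero]
    exact ne_empty_of_mem (mem_comp.2 Relation.ReflTransGen.refl)
  have h3 := h1.resolve_left h2
  rw [card_compl] at h3
  have h4 := card_pos_Tor (m := m)
  rw [card_Tor] at h3 h4
  omega

theorem big_nonempty {P : Finset (Tor m)} (hd : 0 < d)
    (h : 9 * ((∑ i, m i) * P.card) < 2 * ∏ i, m i) : (big P).Nonempty := by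
  classical
  by_contra hb
  rw [Set.not_nonempty_iff_eq_empty] at hb
  set N := ∏ i, m i with hN
  have hm1 : ∀ i, 1 ≤ m i := fun i => Nat.one_le_iff_ne_zero.2 (NeZero.ne _)
  have hS : 1 ≤ ∑ i, m i :=
    (hm1 ⟨0, hd⟩).trans (single_le_sum (f := m) (fun i _ => Nat.zero_le _) (mem_univ _))
  have hsm : ∀ a, 2 * (comp P a).card ≤ N := by
    intro a
    by_cases ha : a ∈ P
    · have h1 : comp P a = {a} := by
        ext b
        rw [mem_comp, mem_singleton]
        constructor
        · intro h2
          rcases h2.cases_head with h2 | ⟨c, h2, _⟩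
          · exact h2.symm
          · exact absurd ha h2.1
        · rintro rfl
          exact Relation.ReflTransGen.refl
      rw [h1, card_singleton]
      have h2 : 1 ≤ P.card := card_pos.2 ⟨a, ha⟩
      have h3 : 1 ≤ (∑ i, m i) * P.card := Nat.mul_pos hS h2
      omega
    · by_contra h1
      have : a ∈ big P := ⟨ha, by omega⟩
      rw [hb] at this
      exact this
  obtain ⟨A, hA, hmax⟩ := exists_max_image
    ((univ : Finset (Finset (Tor m))).filter
      fun A : Finset (Tor m) => Closed P (A : Set (Tor m)) ∧ 3 * A.card ≤ 2 * N) Finset.card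
    ⟨∅, by
      rw [mem_filter]
      refine ⟨mem_univ _, fun a b _ h => ?_, by simp⟩
      simp at h⟩
  rw [mem_filter] at hA
  obtain ⟨-, hA1, hA2⟩ := hA
  have hN1 : 1 ≤ N := by
    have := card_pos_Tor (m := m)
    rw [card_Tor] at this
    omega
  have hA3 : N ≤ 3 * A.card := by
    by_contra hlt
    have h1 : ∃ a, a ∉ A := by
      by_contra h2
      push Not at h2
      have h3 : A = univ := eq_univ_iff_forall.2 h2
      rw [h3, card_univ, card_Tor] at hlt
      omega
    obtain ⟨a, ha⟩ := h1
    have h2 : Closed P ((A ∪ comp P a : Finset (Tor m)) : Set (Tor m)) := by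
      intro b c h3 h4
      rw [coe_union] at h4 ⊢
      rcases h4 with h4 | h4
      · exact Or.inl (hA1 b c h3 h4)
      · exact Or.inr (comp_closed P a b c h3 h4)
    have h3 : a ∈ comp P a := mem_comp.2 Relation.ReflTransGen.refl
    have h4 := card_union_le A (comp P a)
    have h5 : A.card < (A ∪ comp P a).card :=
      card_lt_card ⟨subset_union_left, fun h6 => ha (h6 (mem_union_right _ h3))⟩
    have h6 : ¬ (3 * (A ∪ comp P a).card ≤ 2 * N) := by
      intro h7
      have := hmax _ (mem_filter.2 ⟨mem_univ _, h2, h7⟩)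
      omega
    have h7 := hsm a
    have h8 := hmax (comp P a) (mem_filter.2 ⟨mem_univ _, comp_closed P a, by omega⟩)
    omega
  have h1 := isop hA1
  rw [card_compl, card_Tor, ← hN] at h1
  have h2 : A.card ≤ N := by omega
  obtain ⟨c, hc⟩ := Nat.exists_eq_add_of_le h2
  rw [hc] at h1 hA2 hA3 h
  rw [Nat.add_sub_cancel_left] at h1
  set α := A.card
  set T := (∑ i, m i) * P.card
  have h3 : 9 * (α * c) ≤ 9 * T * (α + c) := by nlinarith
  have h4 : 9 * T * (α + c) < 2 * (α + c) * (α + c) := by
    have : 0 < α + c := by omega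
    exact Nat.mul_lt_mul_of_pos_right (by omega) this
  have h5 : (α : ℤ) ≤ 2 * c := by omega
  have h6 : (c : ℤ) ≤ 2 * α := by omega
  have h7 : (9 * (α * c) : ℤ) < 2 * (α + c) * (α + c) := by exact_mod_cast lt_of_le_of_lt h3 h4
  nlinarith [mul_nonneg (sub_nonneg.2 h5) (sub_nonneg.2 h6)]

end Pool.Agent.CayWL
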